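import Mathlib

/-!
# The Frobenius at a prime not dividing the order of a root of unity
-/

set_option autoImplicit false

namespace Pool.Agent.Q16.UB

open Polynomial

theorem exists_frobenius {A Kv Ω : Type*} [CommRing A] [IsDomain A] [IsIntegrallyClosed A]
    [Field Kv] [Algebra A Kv] [IsFractionRing A Kv]
    [Field Ω] [Algebra Kv Ω] [Algebra A Ω] [IsScalarTower A Kv Ω] [Normal Kv Ω]
    {k : Type*} [Field k] (π : A →+* k) (l : ℕ) (hl : l.Prime) (hl0 : (l : k) = 0)
    (hfrob : ∀ c : A, π c ^ l = π c) (r : ℕ) (hr0 : 0 < r) (hr : (r : k) ≠ 0)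
    (ζ : Ω) (hζ : ζ ^ r = 1) : ∃ φ : Ω ≃ₐ[Kv] Ω, φ ζ = ζ ^ l := by
  classical
  have : Fact l.Prime := ⟨hl⟩
  have : CharP k l := (CharP.charP_iff_prime_eq_zero hl).mpr hl0
  have hinj : Function.Injective (algebraMap A Ω) := by
    rw [IsScalarTower.algebraMap_eq A Kv Ω]
    exact (algebraMap Kv Ω).injective.comp (IsFractionRing.injective A Kv)
  have : FaithfulSMul A Ω := (faithfulSMul_iff_algebraMap_injective A Ω).mpr hinj
  have hζint : IsIntegral A ζ := IsIntegral.of_pow hr0 (by rw [hζ]; exact isIntegral_one)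
  have hζint' : IsIntegral Kv ζ := hζint.tower_top
  set g : A[X] := minpoly A ζ with hg
  have hgm : g.Monic := minpoly.monic hζint
  have hgK : minpoly Kv ζ = g.map (algebraMap A Kv) :=
    minpoly.isIntegrallyClosed_eq_field_fractions' Kv hζint
  obtain ⟨h, hh⟩ : g ∣ X ^ r - 1 := by
    apply minpoly.isIntegrallyClosed_dvd hζint
    simp [hζ]
  have key : aeval (ζ ^ l) g = 0 := by
    by_contra hne
    have h1 : aeval (ζ ^ l) (g * h) = 0 := by
      rw [← hh, map_sub, map_pow, aeval_X, map_one, ← pow_mul, mul_comm, pow_mul, hζ, one_pow,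
        sub_self]
    rw [map_mul] at h1
    have h2 : aeval (ζ ^ l) h = 0 := (mul_eq_zero.mp h1).resolve_left hne
    have h3 : aeval ζ (expand A l h) = 0 := by
      rw [expand_aeval]
      exact h2
    have h4 : g ∣ expand A l h := minpoly.isIntegrallyClosed_dvd hζint h3
    have h5 : g.map π ∣ (h.map π) ^ l := by
      have h6 : (expand A l h).map π = expand k l (h.map π) := map_expand
      have h7 : (h.map π) ^ l = expand k l (h.map π) := by
        rw [← map_frobenius_expand l (h.map π)]
        ext n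
        rw [coeff_map, frobenius_def]
        rw [← map_expand (f := π)] 
        rw [coeff_map, hfrob]
      rw [h7, ← h6]
      exact Polynomial.map_dvd π h4
    have h8 : (g.map π * h.map π).Separable := by
      rw [← Polynomial.map_mul, ← hh]
      have : ((X : A[X]) ^ r - 1).map π = X ^ r - 1 := by simp
      rw [this]
      exact X_pow_sub_one_separable_iff.mpr hr
    have h9 : IsCoprime (g.map π) ((h.map π) ^ l) := h8.isCoprime.pow_right
    have h10 : IsUnit (g.map π) := h9.isUnit_of_dvd' dvd_rfl h5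
    have h11 : (g.map π).natDegree = 0 := natDegree_eq_zero_of_isUnit h10
    rw [hgm.natDegree_map] at h11
    exact (minpoly.natDegree_pos hζint).ne' h11
  have h13 : aeval (ζ ^ l) (minpoly Kv ζ) = 0 := by
    rw [hgK, aeval_map_algebraMap]
    exact key
  have h14 : IsConjRoot Kv ζ (ζ ^ l) := isConjRoot_of_aeval_eq_zero hζint' h13
  exact isConjRoot_iff_exists_algEquiv.mp h14.symm

end Pool.Agent.Q16.UB
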