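import Pool.Agent.Q16.UB.Orb

/-!
# A lower bound for heights from the product formula
-/

set_option autoImplicit false

namespace Pool.Agent.Q16.UB

open NumberField Height

section place

variable {E : Type*} [Field E] [NumberField E]

lemma good_of_finitePlace (v : FinitePlace E) {r : ℕ} (hv : v (r : E) < 1) : Good v.val r := by
  refine ⟨?_, ?_, hv⟩
  · intro x y
    exact v.add_le x y
  · intro x hx
    have h1 := FinitePlace.norm_le_one E v.maximalIdeal ⟨x, hx⟩
    rw [FinitePlace.norm_embedding_eq] at h1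
    exact h1

lemma finitePlace_le_one (v : FinitePlace E) (x : E) (hx : IsIntegral ℤ x) : v x ≤ 1 := by
  have h1 := FinitePlace.norm_le_one E v.maximalIdeal ⟨x, hx⟩
  rw [FinitePlace.norm_embedding_eq] at h1
  exact h1

lemma finprod_natCast (r : ℕ) (hr : r ≠ 0) :
    ∏ᶠ v : FinitePlace E, v (r : E) = ((r : ℝ) ^ Module.finrank ℚ E)⁻¹ := by
  have hr0 : (r : E) ≠ 0 := by exact_mod_cast hr
  rw [FinitePlace.prod_eq_inv_abs_norm hr0]
  have h1 : Algebra.norm ℚ (r : E) = (r : ℚ) ^ Module.finrank ℚ E := by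
    have := Algebra.norm_algebraMap (S := E) (r : ℚ)
    rw [map_natCast] at this
    exact this
  rw [h1]
  push_cast
  rw [abs_of_nonneg (by positivity)]

/-- the comparison of products -/
lemma height_ineq (α γ : E) (r m : ℕ) (hr : r ≠ 0) (hne : γ - α ≠ 0)
    (hfin : ∀ v : FinitePlace E, v (γ - α) ^ m ≤ v (r : E) * (max (v α) 1 * max (v γ) 1) ^ m) :
    (r : ℝ) ^ Module.finrank ℚ E ≤
      ((2 : ℝ) ^ Module.finrank ℚ E * (mulHeight₁ α * mulHeight₁ γ)) ^ m := by
  have hr0 : (r : E) ≠ 0 := by exact_mod_cast hr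
  have hprod := prod_abs_eq_one hne
  have hfs1 : (fun v : FinitePlace E => v (γ - α) ^ m).HasFiniteMulSupport :=
    (FinitePlace.hasFiniteMulSupport hne).fun_pow m
  have hfmax : ∀ x : E, (fun v : FinitePlace E => max (v x) 1).HasFiniteMulSupport := by
    intro x
    rcases eq_or_ne x 0 with rfl | hx
    · have : (fun v : FinitePlace E => max (v (0 : E)) 1) = fun _ => 1 := by
        funext v
        simp
      rw [this]
      exact Function.hasFiniteMulSupport_one
    · have h1 := FinitePlace.hasFiniteMulSupport (K := E) hx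
      refine Set.Finite.subset h1 ?_
      intro v hv
      rw [Function.mem_mulSupport] at hv ⊢
      intro h2
      apply hv
      rw [h2, max_self]
  have hfr : (fun v : FinitePlace E => v (r : E)).HasFiniteMulSupport :=
    FinitePlace.hasFiniteMulSupport hr0
  have hfmm : (fun v : FinitePlace E => max (v α) 1 * max (v γ) 1).HasFiniteMulSupport :=
    (hfmax α).mul (hfmax γ)
  have hfmmm : (fun v : FinitePlace E => (max (v α) 1 * max (v γ) 1) ^ m).HasFiniteMulSupport :=
    hfmm.fun_pow m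
  have hfs2 : (fun v : FinitePlace E => v (r : E) * (max (v α) 1 * max (v γ) 1) ^ m).HasFiniteMulSupport :=
    hfr.mul hfmmm
  have hF : (∏ᶠ v : FinitePlace E, v (γ - α)) ^ m ≤
      ((r : ℝ) ^ Module.finrank ℚ E)⁻¹ *
      ((∏ᶠ v : FinitePlace E, max (v α) 1) * (∏ᶠ v : FinitePlace E, max (v γ) 1)) ^ m := by
    rw [finprod_pow (FinitePlace.hasFiniteMulSupport hne)]
    calc ∏ᶠ v : FinitePlace E, v (γ - α) ^ m
        ≤ ∏ᶠ v : FinitePlace E, v (r : E) * (max (v α) 1 * max (v γ) 1) ^ m :=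
          finprod_le_finprod hfs1 (fun v => pow_nonneg (apply_nonneg v _) _) hfs2 hfin
      _ = (∏ᶠ v : FinitePlace E, v (r : E)) *
          ∏ᶠ v : FinitePlace E, (max (v α) 1 * max (v γ) 1) ^ m :=
          finprod_mul_distrib hfr hfmmm
      _ = ((r : ℝ) ^ Module.finrank ℚ E)⁻¹ *
        ((∏ᶠ v : FinitePlace E, max (v α) 1) * (∏ᶠ v : FinitePlace E, max (v γ) 1)) ^ m := by
          rw [finprod_natCast r hr, ← finprod_pow hfmm, finprod_mul_distrib (hfmax α) (hfmax γ)]
  have hI : (∏ w : InfinitePlace E, w (γ - α) ^ w.mult) ^ m ≤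
      ((2 : ℝ) ^ Module.finrank ℚ E * ((∏ w : InfinitePlace E, max (w α) 1 ^ w.mult) *
        (∏ w : InfinitePlace E, max (w γ) 1 ^ w.mult))) ^ m := by
    apply pow_le_pow_left₀
    · exact Finset.prod_nonneg fun w _ => pow_nonneg (apply_nonneg w _) _
    have h2 : (2 : ℝ) ^ Module.finrank ℚ E = ∏ w : InfinitePlace E, (2 : ℝ) ^ w.mult := by
      rw [Finset.prod_pow_eq_pow_sum, InfinitePlace.sum_mult_eq]
    rw [h2, ← Finset.prod_mul_distrib, ← Finset.prod_mul_distrib]
    apply Finset.prod_le_prod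
    · intro w _
      exact pow_nonneg (apply_nonneg w _) _
    · intro w _
      rw [← mul_pow, ← mul_pow]
      apply pow_le_pow_left₀ (apply_nonneg w _)
      have h3 : w (γ - α) ≤ w γ + w α := by
        rw [sub_eq_add_neg]
        have h31 := w.val.add_le γ (-α)
        rw [map_neg_eq_map] at h31
        exact h31
      have h4 : (1 : ℝ) ≤ max (w α) 1 := le_max_right _ _
      have h5 : (1 : ℝ) ≤ max (w γ) 1 := le_max_right _ _
      have h6 : w α ≤ max (w α) 1 := le_max_left _ _
      have h7 : w γ ≤ max (w γ) 1 := le_max_left _ _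
      nlinarith
  have hH : (mulHeight₁ α * mulHeight₁ γ) =
      ((∏ w : InfinitePlace E, max (w α) 1 ^ w.mult) *
        (∏ w : InfinitePlace E, max (w γ) 1 ^ w.mult)) *
      ((∏ᶠ v : FinitePlace E, max (v α) 1) * (∏ᶠ v : FinitePlace E, max (v γ) 1)) := by
    rw [NumberField.mulHeight₁_eq, NumberField.mulHeight₁_eq]
    ring
  have h8 : (1 : ℝ) ≤ ((2 : ℝ) ^ Module.finrank ℚ E * ((∏ w : InfinitePlace E, max (w α) 1 ^ w.mult) *
        (∏ w : InfinitePlace E, max (w γ) 1 ^ w.mult))) ^ m * (((r : ℝ) ^ Module.finrank ℚ E)⁻¹ *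
      ((∏ᶠ v : FinitePlace E, max (v α) 1) * (∏ᶠ v : FinitePlace E, max (v γ) 1)) ^ m) := by
    calc (1 : ℝ) = ((∏ w : InfinitePlace E, w (γ - α) ^ w.mult) *
          ∏ᶠ v : FinitePlace E, v (γ - α)) ^ m := by rw [hprod, one_pow]
      _ = (∏ w : InfinitePlace E, w (γ - α) ^ w.mult) ^ m *
          (∏ᶠ v : FinitePlace E, v (γ - α)) ^ m := mul_pow _ _ _
      _ ≤ _ := by
        apply mul_le_mul hI hF
        · apply pow_nonneg
          exact finprod_nonneg fun v => apply_nonneg v _
        · apply pow_nonneg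
          apply mul_nonneg (by positivity)
          apply mul_nonneg
          · exact Finset.prod_nonneg fun w _ => pow_nonneg (le_max_of_le_right zero_le_one) _
          · exact Finset.prod_nonneg fun w _ => pow_nonneg (le_max_of_le_right zero_le_one) _
  have hrpos : (0 : ℝ) < (r : ℝ) ^ Module.finrank ℚ E := by
    have : (0 : ℝ) < r := by exact_mod_cast Nat.pos_of_ne_zero hr
    positivity
  rw [hH]
  have h9 := mul_le_mul_of_nonneg_left h8 hrpos.le
  rw [mul_one] at h9
  refine h9.trans (le_of_eq ?_)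
  field_simp
  ring

/-- the logarithmic form -/
lemma height_lower (α γ : E) (r m : ℕ) (hr : r ≠ 0) (hm : m ≠ 0) (hne : γ - α ≠ 0)
    (hfin : ∀ v : FinitePlace E, v (γ - α) ^ m ≤ v (r : E) * (max (v α) 1 * max (v γ) 1) ^ m) :
    (Module.finrank ℚ E : ℝ) * (Real.log r / m - Real.log 2) ≤
      logHeight₁ α + logHeight₁ γ := by
  have h1 := height_ineq α γ r m hr hne hfin
  have hrpos : (0 : ℝ) < r := by exact_mod_cast Nat.pos_of_ne_zero hr
  have hα : 0 < mulHeight₁ α := mulHeight₁_pos α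
  have hγ : 0 < mulHeight₁ γ := mulHeight₁_pos γ
  have h2 := Real.log_le_log (by positivity) h1
  rw [Real.log_pow, Real.log_pow, Real.log_mul (by positivity) (by positivity), Real.log_pow,
    Real.log_mul hα.ne' hγ.ne'] at h2
  have hmpos : (0 : ℝ) < m := by exact_mod_cast Nat.pos_of_ne_zero hm
  have h3 : (Module.finrank ℚ E : ℝ) * (Real.log r / m) ≤
      (Module.finrank ℚ E : ℝ) * Real.log 2 + (Real.log (mulHeight₁ α) + Real.log (mulHeight₁ γ)) := by
    rw [← mul_div_assoc, div_le_iff₀ hmpos]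
    linarith
  rw [logHeight₁, logHeight₁]
  linarith

end place

section cyc

variable {E : Type*} [Field E] [NumberField E]

/-- the lower bound for the heights of elements of the tower -/
theorem height_cyc (r : ℕ) (hr : r.Prime) (M : ℕ) [NeZero M] (hM : ¬ r ∣ M)
    [IsCyclotomicExtension {M * r} ℚ E] {z : E} (hz : IsPrimitiveRoot z M)
    {T : Type*} [Group T] (ψ : (E ≃ₐ[ℚ] E) →* T) (U : Finset T) (m : ℕ) (hm : m ≠ 0)
    (hU : U.card ≤ m) (hψU : ∀ σ, ψ σ ∈ U)
    (α : E) (hfix : ∀ σ : E ≃ₐ[ℚ] E, σ z = z → ψ σ = 1 → σ α = α)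
    (σ : E ≃ₐ[ℚ] E) (hσ : σ z = z) (hσα : σ α ≠ α) :
    (Module.finrank ℚ E : ℝ) * (Real.log r / m - Real.log 2) ≤
      logHeight₁ α + logHeight₁ (σ α) := by
  apply height_lower α (σ α) r m hr.ne_zero hm (sub_ne_zero.mpr hσα)
  intro v
  rcases lt_or_ge (v (r : E)) 1 with hv | hv
  · exact (good_of_finitePlace v hv).bound hr M hM hz ψ U m hU hψU α hfix σ hσ
  · have h1 : v (r : E) = 1 :=
      le_antisymm (finitePlace_le_one v _ (by
        have := isIntegral_algebraMap (R := ℤ) (A := E) (x := (r : ℤ))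
        simpa using this)) hv
    rw [h1, one_mul]
    apply pow_le_pow_left₀ (apply_nonneg v _)
    have h2 : v (σ α - α) ≤ max (v (σ α)) (v α) := by
      rw [sub_eq_add_neg]
      have h31 := v.add_le (σ α) (-α)
      have h32 : v (-α) = v α := by
        rw [FinitePlace.coe_apply v (-α), map_neg_eq_map, ← FinitePlace.coe_apply]
      rw [h32] at h31
      exact h31
    have h4 : (1 : ℝ) ≤ max (v α) 1 := le_max_right _ _
    have h5 : (1 : ℝ) ≤ max (v (σ α)) 1 := le_max_right _ _
    have h6 : v α ≤ max (v α) 1 := le_max_left _ _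
    have h7 : v (σ α) ≤ max (v (σ α)) 1 := le_max_left _ _
    refine h2.trans (max_le ?_ ?_)
    · nlinarith
    · nlinarith

end cyc

end Pool.Agent.Q16.UB
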