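import Mathlib

/-!
# Inertia at a prime `r` in the cyclotomic field of level `M r`, in terms of absolute values
-/

set_option autoImplicit false

namespace Pool.Agent.Q16.UB

open NumberField Polynomial

/-- a nonarchimedean absolute value which is at most one on the algebraic integers -/
structure Good {E : Type*} [Field E] (v : AbsoluteValue E ℝ) (r : ℕ) : Prop where
  na : IsNonarchimedean v
  int : ∀ x : E, IsIntegral ℤ x → v x ≤ 1
  lt : v (r : E) < 1

lemma coe_icast {E : Type*} [Field E] (n : ℕ) : ((n : integralClosure ℤ E) : E) = n :=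
  map_natCast (algebraMap (integralClosure ℤ E) E) n

section basic

variable {E : Type*} [Field E] {v : AbsoluteValue E ℝ} {r : ℕ}

lemma Good.sub_lt (h : Good v r) {x y : E} {c : ℝ} (hx : v x < c) (hy : v y < c) :
    v (x - y) < c := by
  have h1 := h.na x (-y)
  rw [← sub_eq_add_neg, map_neg_eq_map] at h1
  exact h1.trans_lt (max_lt hx hy)

lemma Good.add_lt (h : Good v r) {x y : E} {c : ℝ} (hx : v x < c) (hy : v y < c) :
    v (x + y) < c := (h.na x y).trans_lt (max_lt hx hy)

lemma Good.sub_le (h : Good v r) {x y : E} {c : ℝ} (hx : v x ≤ c) (hy : v y ≤ c) :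
    v (x - y) ≤ c := by
  have h1 := h.na x (-y)
  rw [← sub_eq_add_neg, map_neg_eq_map] at h1
  exact h1.trans (max_le hx hy)

lemma Good.eq_one_of_sub_lt (h : Good v r) {x y : E} (hx : v x = 1) (hxy : v (y - x) < 1) :
    v y = 1 := by
  apply le_antisymm
  · have : y = (y - x) + x := by ring
    rw [this]
    exact (h.na _ _).trans (max_le hxy.le hx.le)
  · by_contra hcon
    have h1 : v y < 1 := not_le.mp hcon
    have h2 := h.sub_lt h1 hxy
    have e : y - (y - x) = x := by ring
    rw [e, hx] at h2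
    exact lt_irrefl _ h2

lemma Good.root_of_unity (h : Good v r) {x : E} {n : ℕ} (hn : n ≠ 0) (hx : x ^ n = 1) : v x = 1 := by
  have h1 : (v x) ^ n = 1 := by rw [← map_pow, hx, map_one]
  exact (pow_eq_one_iff_of_nonneg (v.nonneg x) hn).mp h1

lemma Good.sub_one_lt (h : Good v r) (hr : r.Prime) {x : E} (hx : x ^ r = 1) : v (x - 1) < 1 := by
  have hxint : IsIntegral ℤ x := IsIntegral.of_pow hr.pos (by rw [hx]; exact isIntegral_one)
  have hint : IsIntegral ℤ (x - 1) := hxint.sub isIntegral_one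
  -- work in the integral closure
  obtain ⟨u, hu⟩ := exists_add_pow_prime_eq (R := integralClosure ℤ E) hr ⟨x - 1, hint⟩ 1
  have hu' := congrArg (fun z : integralClosure ℤ E => (z : E)) hu
  simp only [Subalgebra.coe_pow, Subalgebra.coe_add, Subalgebra.coe_one, sub_add_cancel, one_pow,
    Subalgebra.coe_mul, mul_one, coe_icast] at hu'
  rw [hx] at hu'
  have h1 : (x - 1) ^ r = - ((r : E) * (x - 1) * (u : E)) := by linear_combination -hu'
  have h2 : v (x - 1) ^ r = v r * v (x - 1) * v (u : E) := by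
    rw [← map_pow, h1, map_neg_eq_map, map_mul, map_mul]
  have h3 : v (u : E) ≤ 1 := h.int _ u.2
  have h4 : v (x - 1) ≤ 1 := h.int _ hint
  have h5 : v (x - 1) ^ r < 1 := by
    rw [h2]
    calc v (r : E) * v (x - 1) * v (u : E) ≤ v (r : E) * 1 * 1 := by
          apply mul_le_mul _ h3 (v.nonneg _)
          · exact mul_nonneg (v.nonneg _) zero_le_one
          · exact mul_le_mul_of_nonneg_left h4 (v.nonneg _)
      _ < 1 := by simpa using h.lt
  by_contra hcon
  exact absurd h5 (not_lt.mpr (one_le_pow₀ (not_lt.mp hcon)))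

end basic

section rep

variable {E : Type*} [Field E] [NumberField E] {v : AbsoluteValue E ℝ} {r : ℕ}

/-- the prime ideal of the ring of integers -/
def Good.ideal (h : Good v r) : Ideal (𝓞 E) where
  carrier := {x | v (x : E) < 1}
  zero_mem' := by simp
  add_mem' := by
    intro a b ha hb
    have : ((a + b : 𝓞 E) : E) = a + b := rfl
    show v ((a + b : 𝓞 E) : E) < 1
    rw [this]
    exact h.add_lt ha hb
  smul_mem' := by
    intro c x hx
    show v ((c * x : 𝓞 E) : E) < 1
    have : ((c * x : 𝓞 E) : E) = c * x := rfl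
    rw [this, map_mul]
    have h1 : v (c : E) ≤ 1 := h.int _ c.isIntegral_coe
    calc v (c : E) * v (x : E) ≤ 1 * v (x : E) := mul_le_mul_of_nonneg_right h1 (v.nonneg _)
      _ < 1 := by rw [one_mul]; exact hx

lemma Good.mem_ideal (h : Good v r) (x : 𝓞 E) : x ∈ h.ideal ↔ v (x : E) < 1 := Iff.rfl

lemma Good.ideal_isPrime (h : Good v r) : h.ideal.IsPrime := by
  constructor
  · rw [Ideal.ne_top_iff_one]
    intro h1
    rw [h.mem_ideal] at h1
    simp at h1
  · intro x y hxy
    rw [h.mem_ideal] at hxy ⊢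
    rw [h.mem_ideal]
    by_contra hcon
    push Not at hcon
    have h1 : ((x * y : 𝓞 E) : E) = x * y := rfl
    rw [h1, map_mul] at hxy
    have := one_le_mul_of_one_le_of_one_le hcon.1 hcon.2
    linarith

lemma Good.ideal_ne_bot (h : Good v r) (hr : r ≠ 0) : h.ideal ≠ ⊥ := by
  intro hb
  have h1 : (r : 𝓞 E) ∈ h.ideal := by
    rw [h.mem_ideal]
    have : ((r : 𝓞 E) : E) = r := by simp
    rw [this]
    exact h.lt
  rw [hb, Ideal.mem_bot] at h1
  exact hr (by exact_mod_cast h1)

/-- elements that are integral for `v` are fractions of integers with denominator a unit for `v` -/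
lemma Good.rep (h : Good v r) (hr : r ≠ 0) (x : E) (hx : v x ≤ 1) :
    ∃ n d : 𝓞 E, v (d : E) = 1 ∧ x * d = n := by
  let w : IsDedekindDomain.HeightOneSpectrum (𝓞 E) := ⟨h.ideal, h.ideal_isPrime, h.ideal_ne_bot hr⟩
  have hone : ∀ d : 𝓞 E, d ∉ h.ideal → v (d : E) = 1 := by
    intro d hd
    rw [h.mem_ideal] at hd
    exact le_antisymm (h.int _ d.isIntegral_coe) (not_lt.mp hd)
  obtain ⟨n, d, hnd | hnd⟩ :=
    IsDedekindDomain.HeightOneSpectrum.exists_primeCompl_mul_eq_or_mul_eq (K := E) w x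
  · exact ⟨n, d, hone _ d.2, hnd⟩
  · refine ⟨d, n, ?_, hnd⟩
    have h1 : v x * v (n : E) = 1 := by
      rw [← map_mul]
      have : x * (n : E) = ((d : 𝓞 E) : E) := hnd
      rw [this]
      exact hone _ d.2
    have h2 : v (n : E) ≤ 1 := h.int _ n.isIntegral_coe
    by_contra hne
    have h3 : v (n : E) < 1 := lt_of_le_of_ne h2 hne
    have : v x * v (n : E) < 1 := by
      calc v x * v (n : E) ≤ 1 * v (n : E) := mul_le_mul_of_nonneg_right hx (v.nonneg _)
        _ < 1 := by rw [one_mul]; exact h3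
    linarith

end rep

section unram

/-- `r` is unramified in the cyclotomic field of level `M` if `r` does not divide `M` -/
lemma Good.unramified {E : Type*} [Field E] [NumberField E] {v : AbsoluteValue E ℝ} {r : ℕ}
    (h : Good v r) (hr : r.Prime) (M : ℕ) [NeZero M] (hM : ¬ r ∣ M) [IsCyclotomicExtension {M} ℚ E]
    (x : E) (hx : v x < 1) : v x ≤ v (r : E) := by
  obtain ⟨n, d, hd, hnd⟩ := h.rep hr.ne_zero x hx.le
  have hxn : v x = v (n : E) := by
    rw [← hnd, map_mul, hd, mul_one]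
  rw [hxn] at hx ⊢
  -- a power of `r` which is `1` modulo `M`
  have hcop : Nat.Coprime r M := (Nat.Prime.coprime_iff_not_dvd hr).mpr hM
  set f : ℕ := Nat.totient M with hf
  have hfpos : 0 < f := Nat.totient_pos.mpr (NeZero.pos M)
  have hmod : r ^ f ≡ 1 [MOD M] := Nat.ModEq.pow_totient hcop
  obtain ⟨ζ, hζ⟩ := (IsCyclotomicExtension.exists_isPrimitiveRoot ℚ E (S := {M}) rfl (NeZero.ne M))
  have hcl := IsCyclotomicExtension.Rat.isIntegralClosure_adjoin_singleton (K := E) hζ
  -- the Frobenius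
  have key : ∀ y : E, y ∈ Algebra.adjoin ℤ {ζ} →
      ∃ u : E, IsIntegral ℤ u ∧ y ^ (r ^ f) - y = r * u := by
    intro y hy
    have hζint : IsIntegral ℤ ζ := hζ.isIntegral (NeZero.pos M)
    have hadj : ∀ z : E, z ∈ Algebra.adjoin ℤ {ζ} → IsIntegral ℤ z := by
      intro z hz
      have hle : Algebra.adjoin ℤ {ζ} ≤ integralClosure ℤ E := by
        rw [Algebra.adjoin_le_iff]
        intro w hw
        rw [Set.mem_singleton_iff] at hw
        rw [hw]
        exact hζint
      exact hle hz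
    induction hy using Algebra.adjoin_induction with
    | mem z hz =>
      rw [Set.mem_singleton_iff] at hz
      refine ⟨0, isIntegral_zero, ?_⟩
      rw [hz, mul_zero, sub_eq_zero]
      have h1 : r ^ f = 1 + M * ((r ^ f - 1) / M) := by
        have hdv : M ∣ r ^ f - 1 := (Nat.modEq_iff_dvd' (Nat.one_le_pow _ _ hr.pos)).mp hmod.symm
        rw [Nat.mul_div_cancel' hdv]
        have := Nat.one_le_pow f r hr.pos
        omega
      rw [h1, pow_add, pow_one, pow_mul, hζ.pow_eq_one, one_pow, mul_one]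
    | algebraMap z =>
      have h1 : (r : ℤ) ∣ z ^ (r ^ f) - z := by
        have := Fact.mk hr
        rw [← ZMod.intCast_zmod_eq_zero_iff_dvd]
        push_cast
        rw [ZMod.pow_card_pow, sub_self]
      obtain ⟨u, hu⟩ := h1
      refine ⟨(u : E), isIntegral_algebraMap, ?_⟩
      have := congrArg (fun t : ℤ => (t : E)) hu
      simpa using this
    | add y z hy hz ihy ihz =>
      obtain ⟨u, hu, hu'⟩ := ihy
      obtain ⟨w, hw, hw'⟩ := ihz
      obtain ⟨s, hs⟩ := exists_add_pow_prime_pow_eq (R := integralClosure ℤ E) hr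
        ⟨y, hadj y hy⟩ ⟨z, hadj z hz⟩ f
      have hs' := congrArg (fun z : integralClosure ℤ E => (z : E)) hs
      simp only [Subalgebra.coe_pow, Subalgebra.coe_add, Subalgebra.coe_mul,
        coe_icast] at hs'
      refine ⟨u + w + y * z * s, (hu.add hw).add (((hadj y hy).mul (hadj z hz)).mul s.2), ?_⟩
      rw [hs']
      linear_combination hu' + hw'
    | mul y z hy hz ihy ihz =>
      obtain ⟨u, hu, hu'⟩ := ihy
      obtain ⟨w, hw, hw'⟩ := ihz
      refine ⟨u * z ^ (r ^ f) + y * w, (hu.mul ((hadj z hz).pow _)).add ((hadj y hy).mul hw), ?_⟩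
      rw [mul_pow]
      linear_combination (z ^ (r ^ f)) * hu' + y * hw'
  have hn : (n : E) ∈ Algebra.adjoin ℤ {ζ} := by
    obtain ⟨y, hy⟩ := (hcl.isIntegral_iff).mp n.isIntegral_coe
    have h9 : (n : E) = algebraMap _ E y := hy.symm
    rw [h9]
    exact y.2
  obtain ⟨u, hu, hu'⟩ := key n hn
  have hq : 0 < r ^ f - 1 := by
    have : 1 < r ^ f := Nat.one_lt_pow hfpos.ne' hr.one_lt
    omega
  have h1 : (n : E) ^ (r ^ f) - n = n * ((n : E) ^ (r ^ f - 1) - 1) := by
    have : (n : E) ^ (r ^ f) = n * (n : E) ^ (r ^ f - 1) := by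
      rw [← pow_succ']
      congr 1
      omega
    rw [this]
    ring
  have h2 : v ((n : E) ^ (r ^ f - 1) - 1) = 1 := by
    have h3 : v ((n : E) ^ (r ^ f - 1)) < 1 := by
      rw [map_pow]
      exact pow_lt_one₀ (v.nonneg _) hx hq.ne'
    apply h.eq_one_of_sub_lt (x := -1) (by rw [map_neg_eq_map, map_one])
    have : (n : E) ^ (r ^ f - 1) - 1 - -1 = (n : E) ^ (r ^ f - 1) := by ring
    rw [this]
    exact h3
  have h4 : v (n : E) = v (r : E) * v u := by
    rw [← map_mul, ← hu', h1, map_mul, h2, mul_one]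
  rw [h4]
  exact mul_le_of_le_one_right (v.nonneg _) (h.int _ hu)

end unram

section inertia

variable {E : Type*} [Field E] [NumberField E] {v : AbsoluteValue E ℝ} {r : ℕ}

/-- the inertia property on integers -/
lemma Good.inertia_int (h : Good v r) (hr : r.Prime) (M : ℕ) [NeZero M]
    [IsCyclotomicExtension {M * r} ℚ E] {z : E} (hz : IsPrimitiveRoot z M) (σ : E ≃ₐ[ℚ] E)
    (hσ : σ z = z) (x : E) (hx : IsIntegral ℤ x) : v (σ x - x) < 1 := by
  have : NeZero (M * r) := ⟨Nat.mul_ne_zero (NeZero.ne M) hr.ne_zero⟩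
  obtain ⟨ζ, hζ⟩ := (IsCyclotomicExtension.exists_isPrimitiveRoot ℚ E (S := {M * r}) rfl
    (NeZero.ne (M * r)))
  have hcl := IsCyclotomicExtension.Rat.isIntegralClosure_adjoin_singleton (K := E) hζ
  have hσint : ∀ y : E, IsIntegral ℤ y → IsIntegral ℤ (σ y) := fun y hy => hy.map σ
  have hmem : x ∈ Algebra.adjoin ℤ {ζ} := by
    obtain ⟨y, hy⟩ := (hcl.isIntegral_iff).mp hx
    rw [← hy]
    exact y.2
  have hζint : IsIntegral ℤ ζ := hζ.isIntegral (NeZero.pos (M * r))
  have hadj : ∀ z : E, z ∈ Algebra.adjoin ℤ {ζ} → IsIntegral ℤ z := by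
    intro z hz
    have hle : Algebra.adjoin ℤ {ζ} ≤ integralClosure ℤ E := by
      rw [Algebra.adjoin_le_iff]
      intro w hw
      rw [Set.mem_singleton_iff] at hw
      rw [hw]
      exact hζint
    exact hle hz
  clear hx
  induction hmem using Algebra.adjoin_induction with
  | mem y hy =>
    rw [Set.mem_singleton_iff] at hy
    rw [hy]
    -- `ζ ^ r` is a power of `z`
    have h1 : (ζ ^ r) ^ M = 1 := by rw [← pow_mul, mul_comm, hζ.pow_eq_one]
    obtain ⟨i, -, hi⟩ := hz.eq_pow_of_pow_eq_one h1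
    have h2 : σ (ζ ^ r) = ζ ^ r := by rw [← hi, map_pow, hσ]
    have hζ0 : ζ ≠ 0 := hζ.ne_zero (NeZero.ne (M * r))
    have h3 : (σ ζ / ζ) ^ r = 1 := by
      rw [div_pow, ← map_pow, h2, div_self (pow_ne_zero _ hζ0)]
    have h4 := h.sub_one_lt hr h3
    have h5 : σ ζ - ζ = ζ * (σ ζ / ζ - 1) := by field_simp
    rw [h5, map_mul, h.root_of_unity (NeZero.ne (M * r)) hζ.pow_eq_one, one_mul]
    exact h4
  | algebraMap y =>
    simp
  | add y w hy hw ihy ihw =>
    have e : σ (y + w) - (y + w) = (σ y - y) + (σ w - w) := by rw [map_add]; ring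
    rw [e]
    exact h.add_lt ihy ihw
  | mul y w hy hw ihy ihw =>
    have e : σ (y * w) - (y * w) = σ y * (σ w - w) + w * (σ y - y) := by rw [map_mul]; ring
    rw [e]
    apply h.add_lt
    · rw [map_mul]
      calc v (σ y) * v (σ w - w) ≤ 1 * v (σ w - w) :=
            mul_le_mul_of_nonneg_right (h.int _ (hσint _ (hadj y hy))) (v.nonneg _)
        _ < 1 := by rw [one_mul]; exact ihw
    · rw [map_mul]
      calc v w * v (σ y - y) ≤ 1 * v (σ y - y) :=
            mul_le_mul_of_nonneg_right (h.int _ (hadj w hw)) (v.nonneg _)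
        _ < 1 := by rw [one_mul]; exact ihy

/-- the inertia property -/
lemma Good.inertia (h : Good v r) (hr : r.Prime) (M : ℕ) [NeZero M]
    [IsCyclotomicExtension {M * r} ℚ E] {z : E} (hz : IsPrimitiveRoot z M) (σ : E ≃ₐ[ℚ] E)
    (hσ : σ z = z) (x : E) (hx : v x ≤ 1) : v (σ x - x) < 1 ∧ v (σ x) ≤ 1 := by
  obtain ⟨n, d, hd, hnd⟩ := h.rep hr.ne_zero x hx
  have h1 := h.inertia_int hr M hz σ hσ n n.isIntegral_coe
  have h2 := h.inertia_int hr M hz σ hσ d d.isIntegral_coe
  have h3 : v (σ d) = 1 := h.eq_one_of_sub_lt hd h2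
  have hd0 : (d : E) ≠ 0 := by
    intro h0
    rw [h0, map_zero] at hd
    exact zero_ne_one hd
  have hσd0 : σ (d : E) ≠ 0 := by
    intro h0
    rw [h0, map_zero] at h3
    exact zero_ne_one h3
  have e : (σ x - x) * (σ d * d) = (σ n - n) * d - n * (σ d - d) := by
    have h5 : σ x * σ d = σ n := by rw [← map_mul, hnd]
    linear_combination (d : E) * h5 - (σ d) * hnd
  have h6 : v (σ x - x) < 1 := by
    have h7 : v (σ x - x) = v ((σ n - n) * d - n * (σ d - d)) := by
      rw [← e, map_mul, map_mul, h3, hd, mul_one, mul_one]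
    rw [h7]
    apply h.sub_lt
    · rw [map_mul, hd, mul_one]
      exact h1
    · rw [map_mul]
      calc v (n : E) * v (σ d - d) ≤ 1 * v (σ d - d) :=
            mul_le_mul_of_nonneg_right (h.int _ n.isIntegral_coe) (v.nonneg _)
        _ < 1 := by rw [one_mul]; exact h2
  refine ⟨h6, ?_⟩
  have h8 : σ x = (σ x - x) + x := by ring
  rw [h8]
  exact (h.na _ _).trans (max_le h6.le hx)

/-- the inertia group preserves the absolute value -/
lemma Good.map_le (h : Good v r) (hr : r.Prime) (M : ℕ) [NeZero M]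
    [IsCyclotomicExtension {M * r} ℚ E] {z : E} (hz : IsPrimitiveRoot z M) (σ : E ≃ₐ[ℚ] E)
    (hσ : σ z = z) (x : E) : v (σ x) ≤ v x := by
  by_contra hcon
  have hlt : v x < v (σ x) := not_le.mp hcon
  have hx0 : x ≠ 0 := by
    rintro rfl
    simp at hlt
  have hvx : 0 < v x := v.pos hx0
  have hvr : 0 < v (r : E) := v.pos (by exact_mod_cast hr.ne_zero)
  set c : ℝ := (v (r : E))⁻¹ with hc
  have hc1 : 1 < c := (one_lt_inv₀ hvr).mpr h.lt
  have hq : 1 < v (σ x) / v x := (one_lt_div hvx).mpr hlt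
  obtain ⟨a, ha⟩ := pow_unbounded_of_one_lt c hq
  obtain ⟨b, hb1, hb2⟩ := exists_mem_Ioc_zpow (pow_pos hvx a) hc1
  -- y = x ^ a * r ^ (b + 1)
  have hr0 : (r : E) ≠ 0 := by exact_mod_cast hr.ne_zero
  set y : E := x ^ a * (r : E) ^ (b + 1) with hy
  have hcpos : 0 < c := by linarith
  have hvy : v y = v x ^ a * (c ^ (b + 1))⁻¹ := by
    rw [hy, map_mul, map_pow, map_zpow₀, hc, inv_zpow, inv_inv]
  have hvσy : v (σ y) = v (σ x) ^ a * (c ^ (b + 1))⁻¹ := by
    have : σ y = (σ x) ^ a * (r : E) ^ (b + 1) := by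
      rw [hy, map_mul, map_pow, map_zpow₀, map_natCast]
    rw [this, map_mul, map_pow, map_zpow₀, hc, inv_zpow, inv_inv]
  have hcz : 0 < c ^ (b + 1) := zpow_pos hcpos _
  have h1 : v y ≤ 1 := by
    rw [hvy]
    rw [← div_eq_mul_inv, div_le_one hcz]
    exact hb2
  have h2 := (h.inertia hr M hz σ hσ y h1).2
  rw [hvσy, ← div_eq_mul_inv, div_le_one hcz] at h2
  have h3 : c * v x ^ a < v (σ x) ^ a := by
    rw [div_pow, lt_div_iff₀ (pow_pos hvx a)] at ha
    exact ha
  have h4 : c ^ (b + 1) < c * v x ^ a := by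
    rw [zpow_add₀ hcpos.ne', zpow_one, mul_comm]
    exact mul_lt_mul_of_pos_left hb1 hcpos
  linarith

lemma Good.map_eq (h : Good v r) (hr : r.Prime) (M : ℕ) [NeZero M]
    [IsCyclotomicExtension {M * r} ℚ E] {z : E} (hz : IsPrimitiveRoot z M) (σ : E ≃ₐ[ℚ] E)
    (hσ : σ z = z) (x : E) : v (σ x) = v x := by
  apply le_antisymm (h.map_le hr M hz σ hσ x)
  have hσ' : σ.symm z = z := by
    rw [AlgEquiv.symm_apply_eq]
    exact hσ.symm
  have := h.map_le hr M hz σ.symm hσ' (σ x)
  rwa [AlgEquiv.symm_apply_apply] at this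

end inertia

end Pool.Agent.Q16.UB
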