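import Pool.Agent.Q16.UB.Frob

/-!
# Residues in the completion
-/

set_option autoImplicit false

namespace Pool.Agent.Q16.UB

open Polynomial IsDedekindDomain

section approx

variable {R K : Type*} [CommRing R] [IsDedekindDomain R] [Field K] [Algebra R K]
  [IsFractionRing R K] (v : HeightOneSpectrum R)

lemma exists_approx (c : v.adicCompletion K) (hc : Valued.v c ≤ 1) :
    ∃ a : R, Valued.v (c - (algebraMap R K a : v.adicCompletion K)) < 1 := by
  -- a nearby element of `K`
  obtain ⟨y, hy⟩ : ∃ y : K, Valued.v (c - (y : v.adicCompletion K)) < 1 := by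
    have ho : IsOpen {x : v.adicCompletion K | Valued.v (c - x) < 1} := by
      have h1 := Valued.isOpen_ball (v.adicCompletion K) 1
      simp only [Valuation.restrict_lt_one_iff] at h1
      exact h1.preimage (continuous_const.sub continuous_id)
    obtain ⟨y, hy⟩ := (HeightOneSpectrum.denseRange_algebraMap (R := R) (K := K) v).exists_mem_open
      ho ⟨c, by simp⟩
    exact ⟨y, hy⟩
  have hy1 : v.valuation K y ≤ 1 := by
    rw [← HeightOneSpectrum.valuedAdicCompletion_eq_valuation' v y]
    have : (y : v.adicCompletion K) = c - (c - (y : v.adicCompletion K)) := by ring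
    rw [this]
    exact (Valuation.map_sub _ _ _).trans (max_le hc hy.le)
  obtain ⟨a, ha⟩ := v.exists_valuation_sub_lt_of_integer hy1 1
  refine ⟨a, ?_⟩
  have h2 : c - (algebraMap R K a : v.adicCompletion K) =
      (c - (y : v.adicCompletion K)) - ((algebraMap R K a - y : K) : v.adicCompletion K) := by
    have : ((algebraMap R K a - y : K) : v.adicCompletion K) =
      (algebraMap R K a : v.adicCompletion K) - (y : v.adicCompletion K) :=
      map_sub (algebraMap K (v.adicCompletion K)) _ _
    rw [this]
    ring
  rw [h2]
  refine (Valuation.map_sub _ _ _).trans_lt (max_lt hy ?_)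
  rw [HeightOneSpectrum.valuedAdicCompletion_eq_valuation']
  exact ha

end approx

end Pool.Agent.Q16.UB
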