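import Mathlib

/-!
# Primes with prescribed nonresidues
-/

set_option autoImplicit false

namespace Pool.Agent.Q16.UB

lemma exists_prime (n B : ℕ) : ∃ p > B, p.Prime ∧ 2 ^ (n + 2) ∣ p - 1 ∧
    ∀ l : ℕ, l.Prime → l ≠ 2 → l ≤ n → (l : ZMod p) ^ (p / 2) = -1 := by
  classical
  -- nonsquares
  have hns : ∀ l : ℕ, l.Prime → l ≠ 2 → ∃ a : ℕ, ¬ IsSquare (a : ZMod l) := by
    intro l hl hl2
    have : Fact l.Prime := ⟨hl⟩
    obtain ⟨a, ha⟩ := FiniteField.exists_nonsquare (F := ZMod l) (by rw [ZMod.ringChar_zmod_n]; exact hl2)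
    exact ⟨a.val, by rwa [ZMod.natCast_zmod_val]⟩
  choose! ns hns using hns
  set t : Finset ℕ := (Finset.range (n + 3)).filter Nat.Prime with ht
  set s : ℕ → ℕ := fun i => if i = 2 then 2 ^ (n + 2) else i with hs
  set a : ℕ → ℕ := fun i => if i = 2 then 1 else ns i with ha
  have hs0 : ∀ i ∈ t, s i ≠ 0 := by
    intro i hi
    simp only [hs]
    split_ifs with h
    · positivity
    · exact (Finset.mem_filter.mp hi).2.ne_zero
  have hcop : Set.Pairwise (t : Set ℕ) (Function.onFun Nat.Coprime s) := by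
    intro i hi j hj hij
    have hip := (Finset.mem_filter.mp (Finset.mem_coe.mp hi)).2
    have hjp := (Finset.mem_filter.mp (Finset.mem_coe.mp hj)).2
    have hc : Nat.Coprime i j := (Nat.coprime_primes hip hjp).mpr hij
    simp only [Function.onFun, hs]
    split_ifs with h1 h2 h2
    · omega
    · rw [h1] at hc
      exact Nat.Coprime.pow_left _ hc
    · rw [h2] at hc
      exact Nat.Coprime.pow_right _ hc
    · exact hc
  obtain ⟨k, hk⟩ := Nat.chineseRemainderOfFinset a s t hs0 hcop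
  set q : ℕ := ∏ i ∈ t, s i with hq
  have hq0 : q ≠ 0 := Finset.prod_ne_zero_iff.mpr hs0
  have hacop : ∀ i ∈ t, (a i).Coprime (s i) := by
    intro i hi
    have hip := (Finset.mem_filter.mp hi).2
    simp only [ha, hs]
    split_ifs with h
    · exact Nat.coprime_one_left _
    · rw [Nat.coprime_comm, Nat.Prime.coprime_iff_not_dvd hip]
      intro hd
      apply hns i hip h
      rw [(ZMod.natCast_eq_zero_iff _ _).mpr hd]
      exact IsSquare.zero
  have hkq : k.Coprime q := by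
    rw [hq]
    apply Nat.Coprime.prod_right
    intro i hi
    have h1 := (hk i hi).gcd_eq
    rw [Nat.Coprime, h1]
    exact hacop i hi
  obtain ⟨p, hpB, hp, hpk⟩ := Nat.forall_exists_prime_gt_and_modEq (max B n) hq0 hkq
  have hpi : ∀ i ∈ t, p ≡ a i [MOD s i] := by
    intro i hi
    exact (hpk.of_dvd (Finset.dvd_prod_of_mem s hi)).trans (hk i hi)
  have h2t : 2 ∈ t := Finset.mem_filter.mpr ⟨Finset.mem_range.mpr (by omega), Nat.prime_two⟩
  have h2 : p ≡ 1 [MOD 2 ^ (n + 2)] := by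
    have := hpi 2 h2t
    simpa [ha, hs] using this
  have hd : 2 ^ (n + 2) ∣ p - 1 := (Nat.modEq_iff_dvd' hp.one_lt.le).mp h2.symm
  refine ⟨p, lt_of_le_of_lt (le_max_left _ _) hpB, hp, hd, ?_⟩
  intro l hl hl2 hln
  have : Fact p.Prime := ⟨hp⟩
  have : Fact l.Prime := ⟨hl⟩
  have hp4 : p % 4 = 1 := by
    have h4 : 4 ∣ 2 ^ (n + 2) := ⟨2 ^ n, by ring⟩
    have h5 : p ≡ 1 [MOD 4] := h2.of_dvd h4
    exact h5
  have hlt : l ∈ t := Finset.mem_filter.mpr ⟨Finset.mem_range.mpr (by omega), hl⟩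
  have h6 : p ≡ ns l [MOD l] := by
    have := hpi l hlt
    simpa [ha, hs, hl2] using this
  have h7 : ¬ IsSquare (p : ZMod l) := by
    rw [(ZMod.natCast_eq_natCast_iff _ _ _).mpr h6]
    exact hns l hl hl2
  have h8 : ¬ IsSquare (l : ZMod p) := by
    rw [ZMod.exists_sq_eq_prime_iff_of_mod_four_eq_one hp4 hl2]
    exact h7
  have hlp : l < p := lt_of_le_of_lt (hln.trans (le_max_right _ _)) hpB
  have h9 : (l : ZMod p) ≠ 0 := by
    rw [Ne, ZMod.natCast_eq_zero_iff]
    intro hdv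
    exact absurd (Nat.le_of_dvd hl.pos hdv) (by omega)
  rcases ZMod.pow_div_two_eq_neg_one_or_one p h9 with h | h
  · exact absurd ((ZMod.euler_criterion p h9).mpr h) h8
  · exact h

/-- order consideration -/
lemma pow_ne_one {p : ℕ} [Fact p.Prime] (hp2 : p ≠ 2) (j : ℕ) (hj : 2 ^ j ∣ p - 1) (hj0 : 0 < j)
    (u : ZMod p) (hu : u ^ (p / 2) = -1) (k : ℕ) (hk : 0 < k) (hk2 : k < 2 ^ j) :
    u ^ (k * ((p - 1) / 2 ^ j)) ≠ 1 := by
  intro h
  obtain ⟨c, hc⟩ := hj
  have hp : p.Prime := Fact.out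
  have hodd : p % 2 = 1 := (hp.eq_two_or_odd).resolve_left hp2
  obtain ⟨a, b, hb, hab⟩ := Nat.exists_eq_two_pow_mul_odd hk.ne'
  have haj : a < j := by
    by_contra hcon
    have h1 : 2 ^ j ≤ 2 ^ a := Nat.pow_le_pow_right (by norm_num) (not_lt.mp hcon)
    have h2 : 0 < b := hb.pos
    have h3 : 2 ^ a ≤ k := by
      rw [hab]
      exact Nat.le_mul_of_pos_right _ h2
    omega
  have h1 : (p - 1) / 2 ^ j = c := by
    rw [hc]
    exact Nat.mul_div_cancel_left _ (by positivity)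
  rw [h1, hab] at h
  have h2 : p / 2 = 2 ^ (j - 1) * c := by
    have : p - 1 = 2 * (2 ^ (j - 1) * c) := by
      rw [hc, ← mul_assoc, ← pow_succ']
      congr 2
      omega
    omega
  have h3 : (u ^ (2 ^ a * b * c)) ^ (2 ^ (j - 1 - a)) = (u ^ (p / 2)) ^ b := by
    rw [← pow_mul, ← pow_mul, h2]
    congr 1
    have : 2 ^ (j - 1) = 2 ^ a * 2 ^ (j - 1 - a) := by
      rw [← pow_add]
      congr 1
      omega
    rw [this]
    ring
  rw [h, one_pow, hu, hb.neg_one_pow] at h3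
  have h4 : (2 : ZMod p) = 0 := by linear_combination h3
  have h5 : p ∣ 2 := by
    rw [← ZMod.natCast_eq_zero_iff]
    exact_mod_cast h4
  exact hp2 ((Nat.prime_dvd_prime_iff_eq hp Nat.prime_two).mp h5)

/-- a fast growing sequence of such primes -/
lemma exists_seq (B : ℕ → ℕ) : ∃ r : ℕ → ℕ, StrictMono r ∧ (∀ n, B n < r n) ∧ (∀ n, (r n).Prime) ∧
    (∀ n, 2 ^ (n + 2) ∣ r n - 1) ∧
    ∀ n l : ℕ, l.Prime → l ≠ 2 → l ≤ n → (l : ZMod (r n)) ^ (r n / 2) = -1 := by
  choose f hf1 hf2 hf3 hf4 using exists_prime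
  let r : ℕ → ℕ := fun n => Nat.rec (f 0 (B 0)) (fun m x => f (m + 1) (max x (B (m + 1)))) n
  have hr0 : r 0 = f 0 (B 0) := rfl
  have hrs : ∀ m, r (m + 1) = f (m + 1) (max (r m) (B (m + 1))) := fun m => rfl
  refine ⟨r, ?_, ?_, ?_, ?_, ?_⟩
  · apply strictMono_nat_of_lt_succ
    intro n
    rw [hrs]
    exact lt_of_le_of_lt (le_max_left _ _) (hf1 (n + 1) (max (r n) (B (n + 1))))
  · intro n
    cases n with
    | zero => exact hf1 0 (B 0)
    | succ n =>
      rw [hrs]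
      exact lt_of_le_of_lt (le_max_right _ _) (hf1 (n + 1) (max (r n) (B (n + 1))))
  · intro n
    cases n with
    | zero => exact hf2 0 (B 0)
    | succ n => exact hf2 (n + 1) _
  · intro n
    cases n with
    | zero => exact hf3 0 (B 0)
    | succ n => exact hf3 (n + 1) _
  · intro n
    cases n with
    | zero => exact hf4 0 (B 0)
    | succ n => exact hf4 (n + 1) _

end Pool.Agent.Q16.UB
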