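import Pool.Agent.Q16.UB.Tower
import Pool.Agent.Q16.UB.Local
import Pool.Agent.Q16.UB.Seq

/-!
# Infinite local degrees
-/

set_option autoImplicit false

namespace Pool.Agent.Q16.UB

open Polynomial IsDedekindDomain NumberField

/-- the base field -/
noncomputable abbrev K0 : IntermediateField ℚ Qb := ⊥

instance instNFK0 : NumberField K0 where
  to_charZero := inferInstance
  to_finiteDimensional := inferInstance

lemma int_of_integer (a : 𝓞 K0) : ∃ n : ℤ, a = (n : 𝓞 K0) := by
  have h1 : ((a : K0) : Qb) ∈ (⊥ : IntermediateField ℚ Qb) := (a : K0).2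
  rw [IntermediateField.mem_bot] at h1
  obtain ⟨q, hq⟩ := h1
  have h2 : IsIntegral ℤ ((a : K0) : Qb) := by
    have h3 : IsIntegral ℤ (a : K0) := a.isIntegral_coe
    have h4 := h3.map (algebraMap K0 Qb).toIntAlgHom
    exact h4
  rw [← hq] at h2
  have h5 : IsIntegral ℤ q := by
    obtain ⟨p, hp, hp2⟩ := h2
    refine ⟨p, hp, ?_⟩
    have h6 : algebraMap ℚ Qb (eval₂ (algebraMap ℤ ℚ) q p) = 0 := by
      rw [← hp2, Polynomial.hom_eval₂]
      congr 1
    exact (map_eq_zero (algebraMap ℚ Qb)).mp h6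
  obtain ⟨n, hn⟩ := IsIntegrallyClosed.isIntegral_iff.mp h5
  refine ⟨n, ?_⟩
  apply RingOfIntegers.coe_injective
  apply Subtype.ext
  rw [← hq, ← hn]
  simp

section

variable (v : HeightOneSpectrum (𝓞 K0))

/-- the residue map of the completion -/
noncomputable abbrev res : v.adicCompletionIntegers K0 →+*
    IsLocalRing.ResidueField (v.adicCompletionIntegers K0) :=
  IsLocalRing.residue (v.adicCompletionIntegers K0)

lemma res_eq_zero_iff (c : v.adicCompletionIntegers K0) :
    res v c = 0 ↔ Valued.v (c : v.adicCompletion K0) < 1 := by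
  rw [IsLocalRing.residue_eq_zero_iff, IsLocalRing.mem_maximalIdeal, mem_nonunits_iff,
    HeightOneSpectrum.adicCompletionIntegers.isUnit_iff_valued_eq_one]
  have h1 : Valued.v (c : v.adicCompletion K0) ≤ 1 := c.2
  constructor
  · intro h
    exact lt_of_le_of_ne h1 h
  · intro h
    exact h.ne

lemma coe_natCast (n : ℕ) :
    ((n : v.adicCompletionIntegers K0) : v.adicCompletion K0) = n :=
  map_natCast (algebraMap (v.adicCompletionIntegers K0) (v.adicCompletion K0)) n

lemma valued_natCast (n : ℕ) : Valued.v (n : v.adicCompletion K0) =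
    v.intValuation (n : 𝓞 K0) := by
  have h1 := HeightOneSpectrum.valuedAdicCompletion_eq_valuation' v (n : K0)
  have h2 : ((n : K0) : v.adicCompletion K0) = (n : v.adicCompletion K0) :=
    map_natCast (algebraMap K0 (v.adicCompletion K0)) n
  rw [h2] at h1
  rw [h1]
  have h3 : (n : K0) = algebraMap (𝓞 K0) K0 (n : 𝓞 K0) := (map_natCast _ n).symm
  rw [h3, HeightOneSpectrum.valuation_of_algebraMap]

lemma res_natCast (n : ℕ) :
    (n : IsLocalRing.ResidueField (v.adicCompletionIntegers K0)) = 0 ↔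
      (n : 𝓞 K0) ∈ v.asIdeal := by
  have h1 : res v (n : v.adicCompletionIntegers K0) =
      (n : IsLocalRing.ResidueField (v.adicCompletionIntegers K0)) := map_natCast _ n
  rw [← h1, res_eq_zero_iff, coe_natCast, valued_natCast,
    HeightOneSpectrum.intValuation_lt_one_iff_mem]

lemma res_frob (l : ℕ) (hl : l.Prime) (hlv : (l : 𝓞 K0) ∈ v.asIdeal)
    (c : v.adicCompletionIntegers K0) : res v c ^ l = res v c := by
  have : Fact l.Prime := ⟨hl⟩
  have : CharP (IsLocalRing.ResidueField (v.adicCompletionIntegers K0)) l :=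
    (CharP.charP_iff_prime_eq_zero hl).mpr ((res_natCast v l).mpr hlv)
  obtain ⟨a, ha⟩ := exists_approx v (c : v.adicCompletion K0) c.2
  obtain ⟨n, rfl⟩ := int_of_integer a
  have h1 : res v (c - (n : v.adicCompletionIntegers K0)) = 0 := by
    rw [res_eq_zero_iff]
    have h2 : ((c - (n : v.adicCompletionIntegers K0) : v.adicCompletionIntegers K0) :
        v.adicCompletion K0) = (c : v.adicCompletion K0) -
        (algebraMap (𝓞 K0) K0 (n : 𝓞 K0) : v.adicCompletion K0) := by
      have h3 : ((n : v.adicCompletionIntegers K0) : v.adicCompletion K0) = n :=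
        map_intCast (algebraMap (v.adicCompletionIntegers K0) (v.adicCompletion K0)) n
      have h4 : ((algebraMap (𝓞 K0) K0 (n : 𝓞 K0) : K0) : v.adicCompletion K0) =
          (n : v.adicCompletion K0) := by
        rw [map_intCast]
        exact map_intCast (algebraMap K0 (v.adicCompletion K0)) n
      rw [h4, ← h3]
      rfl
    rw [h2]
    exact ha
  rw [map_sub, map_intCast, sub_eq_zero] at h1
  rw [h1]
  have h5 : ((n : ZMod l) : ZMod l) ^ l = n := ZMod.pow_card _
  have h6 := congrArg (ZMod.castHom (dvd_refl l)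
    (IsLocalRing.ResidueField (v.adicCompletionIntegers K0))) h5
  rw [map_pow, map_intCast] at h6
  exact h6

/-- the Frobenius at `v` -/
lemma local_frob (l : ℕ) (hl : l.Prime) (hlv : (l : 𝓞 K0) ∈ v.asIdeal) (r : ℕ) (hr : r.Prime)
    (hlr : r ≠ l) (ζ : AlgebraicClosure (v.adicCompletion K0)) (hζ : ζ ^ r = 1) :
    ∃ φ : AlgebraicClosure (v.adicCompletion K0) ≃ₐ[v.adicCompletion K0]
      AlgebraicClosure (v.adicCompletion K0), φ ζ = ζ ^ l := by
  apply exists_frobenius (A := v.adicCompletionIntegers K0) (res v) l hl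
    ((res_natCast v l).mpr hlv) (res_frob v l hl hlv) r hr.pos _ ζ hζ
  intro h
  rw [res_natCast] at h
  -- both `l` and `r` are in the ideal
  have hcop : Nat.Coprime l r := (Nat.coprime_primes hl hr).mpr (Ne.symm hlr)
  have h1 : (1 : 𝓞 K0) ∈ v.asIdeal := by
    have h2 : IsCoprime (l : ℤ) (r : ℤ) := Nat.isCoprime_iff_coprime.mpr hcop
    obtain ⟨a, b, hab⟩ := h2
    have h3 : (1 : 𝓞 K0) = (a : 𝓞 K0) * (l : 𝓞 K0) + (b : 𝓞 K0) * (r : 𝓞 K0) := by
      have := congrArg (fun t : ℤ => (t : 𝓞 K0)) hab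
      push_cast at this
      exact this.symm
    rw [h3]
    exact v.asIdeal.add_mem (v.asIdeal.mul_mem_left _ hlv) (v.asIdeal.mul_mem_left _ h)
  exact v.isPrime.ne_top ((Ideal.eq_top_iff_one _).mpr h1)

end

namespace RSeq

variable (R : RSeq)

lemma ker_psi_closed (j : ℕ) : IsClosed ((R.psi j).ker : Set Gb) := by
  apply Subgroup.isClosed_of_isOpen
  have hfd : FiniteDimensional ℚ (IntermediateField.adjoin ℚ {R.mu j}) :=
    IntermediateField.adjoin.finiteDimensional (Algebra.IsIntegral.isIntegral _)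
  refine Subgroup.isOpen_mono ?_
    (IntermediateField.fixingSubgroup_isOpen (IntermediateField.adjoin ℚ {R.mu j}))
  intro σ hσ
  rw [IntermediateField.mem_fixingSubgroup_iff] at hσ
  have h1 := hσ _ (IntermediateField.mem_adjoin_simple_self ℚ (R.mu j))
  rw [MonoidHom.mem_ker, psi_apply]
  have h2 : R.chi j σ = R.chi j 1 := by
    rw [chi_eq_iff]
    exact h1
  rw [h2, map_one, one_pow]

lemma psi_eq_one_of_fix (j : ℕ) (τ : Gb)
    (h : ∀ x : Qb, x ∈ R.F → x ∈ IntermediateField.adjoin ℚ {R.mu j} → τ x = x) :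
    R.psi j τ = 1 := by
  have h1 := InfiniteGalois.fixingSubgroup_fixedField
    (⟨(R.psi j).ker, R.ker_psi_closed j⟩ : ClosedSubgroup Gb)
  have h2 : τ ∈ (R.psi j).ker := by
    have h3 : τ ∈ (IntermediateField.fixedField (R.psi j).ker).fixingSubgroup := by
      rw [IntermediateField.mem_fixingSubgroup_iff]
      intro x hx
      rw [IntermediateField.mem_fixedField_iff] at hx
      apply h
      · rw [mem_F]
        refine ⟨j + 1, ?_⟩
        rw [mem_Fn]
        intro σ hσ
        exact hx σ (hσ j (Nat.lt_succ_self j))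
      · rw [← InfiniteGalois.fixedField_fixingSubgroup (IntermediateField.adjoin ℚ {R.mu j}),
          IntermediateField.mem_fixedField_iff]
        intro σ hσ
        apply hx
        rw [IntermediateField.mem_fixingSubgroup_iff] at hσ
        have h1 := hσ _ (IntermediateField.mem_adjoin_simple_self ℚ (R.mu j))
        rw [MonoidHom.mem_ker, psi_apply]
        have h2 : R.chi j σ = R.chi j 1 := by
          rw [chi_eq_iff]
          exact h1
        rw [h2, map_one, one_pow]
    have h4 : (IntermediateField.fixedField (R.psi j).ker).fixingSubgroup = (R.psi j).ker := h1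
    rw [h4] at h3
    exact h3
  exact h2

theorem not_finite (hnr : ∀ n l : ℕ, l.Prime → l ≠ 2 → l ≤ n →
      (l : ZMod (R.r n)) ^ (R.r n / 2) = -1)
    (v : HeightOneSpectrum (𝓞 K0)) (l : ℕ) (hl : l.Prime) (hl2 : l ≠ 2)
    (hlv : (l : 𝓞 K0) ∈ v.asIdeal)
    (ι : Qb →+* AlgebraicClosure (v.adicCompletion K0))
    (L : IntermediateField (v.adicCompletion K0) (AlgebraicClosure (v.adicCompletion K0)))
    (hL : ∀ x ∈ R.F, ι x ∈ L) : ¬ FiniteDimensional (v.adicCompletion K0) L := by
  intro hfin
  set D := Module.finrank (v.adicCompletion K0) L with hD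
  set j := max D l + 1 with hj
  have hjD : D < 2 ^ j := by
    have h1 : D < j := by
      have := le_max_left D l
      omega
    exact h1.trans Nat.lt_two_pow_self
  have hjl : l ≤ j := by
    have := le_max_right D l
    omega
  have hrj : j < R.r j := by
    have h1 : 2 ^ j ≤ R.r j - 1 :=
      Nat.le_of_dvd (by have := (R.prime j).one_lt; omega) (R.dvd j)
    have h2 : j < 2 ^ j := Nat.lt_two_pow_self
    omega
  have hr2 : R.r j ≠ 2 := by
    have := hl.two_le
    omega
  have hlr : R.r j ≠ l := by omega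
  set μ := R.mu j with hμ
  have hμr : (ι μ) ^ R.r j = 1 := by
    rw [← map_pow, (R.mu_spec j).pow_eq_one, map_one]
  obtain ⟨φ, hφ⟩ := local_frob v l hl hlv (R.r j) (R.prime j) hlr (ι μ) hμr
  have hφk : ∀ k : ℕ, (φ ^ k) (ι μ) = (ι μ) ^ (l ^ k) := by
    intro k
    induction k with
    | zero => simp
    | succ k ih =>
      rw [pow_succ', AlgEquiv.mul_apply, ih, map_pow, hφ, ← pow_mul, pow_succ, mul_comm]
  -- pigeonhole
  obtain ⟨k, hk0, hkD, hk⟩ : ∃ k : ℕ, 0 < k ∧ k ≤ D ∧ ∀ x ∈ L, (φ ^ k) x = x := by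
    let f : Fin (D + 1) → (L →ₐ[v.adicCompletion K0] AlgebraicClosure (v.adicCompletion K0)) :=
      fun i => ((φ ^ (i : ℕ) : _ ≃ₐ[v.adicCompletion K0] _) : _ →ₐ[v.adicCompletion K0] _).comp L.val
    have hni : ¬ Function.Injective f := by
      intro hinj
      have h1 := Nat.card_le_card_of_injective f hinj
      have h2 := card_algHom_le_finrank (v.adicCompletion K0) L
        (AlgebraicClosure (v.adicCompletion K0))
      rw [Nat.card_eq_fintype_card, Fintype.card_fin] at h1
      omega
    rw [Function.not_injective_iff] at hni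
    obtain ⟨a, b, hab, hne⟩ := hni
    have hab' : ∀ x ∈ L, (φ ^ (a : ℕ)) x = (φ ^ (b : ℕ)) x := by
      intro x hx
      exact DFunLike.congr_fun hab ⟨x, hx⟩
    have main : ∀ a b : ℕ, a < b → (∀ x ∈ L, (φ ^ a) x = (φ ^ b) x) →
        ∀ x ∈ L, (φ ^ (b - a)) x = x := by
      intro a b hlt h x hx
      have h1 := h x hx
      have h2 : φ ^ b = φ ^ a * φ ^ (b - a) := by
        rw [← pow_add]
        congr 1
        omega
      rw [h2, AlgEquiv.mul_apply] at h1
      exact ((φ ^ a).injective h1).symm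
    rcases lt_trichotomy (a : ℕ) (b : ℕ) with h | h | h
    · exact ⟨b - a, by omega, by have := b.2; omega, main a b h hab'⟩
    · exact absurd (Fin.ext h) hne
    · exact ⟨a - b, by omega, by have := a.2; omega, main b a h (fun x hx => (hab' x hx).symm)⟩
  -- the automorphism of the cyclotomic field
  have hcop : (l ^ k).Coprime (R.r j) :=
    Nat.Coprime.pow_left _ ((Nat.coprime_primes hl (R.prime j)).mpr (Ne.symm hlr))
  obtain ⟨τ, hτ⟩ := exists_gal (R.prime j).pos (R.mu_spec j) (l ^ k) hcop
  have hcomp : ∀ x ∈ IntermediateField.adjoin ℚ {R.mu j}, (φ ^ k) (ι x) = ι (τ x) := by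
    intro x hx
    induction hx using IntermediateField.adjoin_induction with
    | mem y hy =>
      rw [Set.mem_singleton_iff] at hy
      rw [hy, hφk, hτ, map_pow]
    | algebraMap q =>
      rw [AlgEquiv.commutes]
      have h1 : ι (algebraMap ℚ Qb q) = (q : AlgebraicClosure (v.adicCompletion K0)) := by
        rw [eq_ratCast, map_ratCast]
      rw [h1, map_ratCast]
    | add y z _ _ hy hz => rw [map_add, map_add, map_add, map_add, hy, hz]
    | inv y _ hy => rw [map_inv₀, map_inv₀, map_inv₀, map_inv₀, hy]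
    | mul y z _ _ hy hz => rw [map_mul, map_mul, map_mul, map_mul, hy, hz]
  have hpsi : R.psi j τ = 1 := by
    apply R.psi_eq_one_of_fix j τ
    intro x hx hx'
    apply ι.injective
    rw [← hcomp x hx']
    exact hk _ (hL x hx)
  -- contradiction
  have hchi : ((R.chi j τ : (ZMod (R.r j))ˣ) : ZMod (R.r j)) = (l : ZMod (R.r j)) ^ k := by
    have h1 := R.chi_spec j τ
    rw [hτ] at h1
    have h2 : ((R.chi j τ : ZMod (R.r j))).val ≡ l ^ k [MOD R.r j] := by
      have h4 := (isOfFinOrder_iff_pow_eq_one.mpr ⟨R.r j, (R.prime j).pos,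
        (R.mu_spec j).pow_eq_one⟩ : IsOfFinOrder (R.mu j))
      have h5 := h4.pow_eq_pow_iff_modEq.mp h1
      rw [← (R.mu_spec j).eq_orderOf] at h5
      exact h5
    have h5 := (ZMod.natCast_eq_natCast_iff _ _ _).mpr h2
    rw [ZMod.natCast_zmod_val] at h5
    rw [h5]
    push_cast
    rfl
  rw [psi_apply] at hpsi
  have h6 := congrArg (fun u : (ZMod (R.r j))ˣ => (u : ZMod (R.r j))) hpsi
  simp only [Units.val_pow_eq_pow_val, Units.val_one] at h6
  rw [hchi, ← pow_mul] at h6
  exact pow_ne_one hr2 j (R.dvd j) (by omega) (l : ZMod (R.r j)) (hnr j l hl hl2 hjl) k hk0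
    (by omega) h6

end RSeq

end Pool.Agent.Q16.UB
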