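import Pool.Agent.Q16.UB.Loc

/-!
# The orbit bound at a place above `r`
-/

set_option autoImplicit false

namespace Pool.Agent.Q16.UB

open NumberField Polynomial

section orbit

variable {E : Type*} [Field E] [NumberField E] {v : AbsoluteValue E ℝ} {r : ℕ}

lemma Good.comp (h : Good v r) {F : Type*} [Field F] (φ : F →+* E) :
    Good (v.comp φ.injective) r := by
  refine ⟨?_, ?_, ?_⟩
  · intro x y
    show v (φ (x + y)) ≤ max (v (φ x)) (v (φ y))
    rw [map_add]
    exact h.na _ _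
  · intro x hx
    exact h.int _ (hx.map (φ.toIntAlgHom))
  · show v (φ (r : F)) < 1
    rw [map_natCast]
    exact h.lt

/-- a power bound for the elements of small orbit -/
lemma Good.orbit (h : Good v r) (hr : r.Prime) (M : ℕ) [NeZero M] (hM : ¬ r ∣ M)
    [IsCyclotomicExtension {M * r} ℚ E] {z : E} (hz : IsPrimitiveRoot z M)
    (S : Finset E) (β : E) (hβ : v β < 1) (hmem : β ∈ S)
    (hS : ∀ y ∈ S, ∃ σ : E ≃ₐ[ℚ] E, σ z = z ∧ σ β = y)
    (hS' : ∀ σ : E ≃ₐ[ℚ] E, σ z = z → ∀ y ∈ S, σ y ∈ S) :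
    v β ^ S.card ≤ v (r : E) := by
  have : NeZero (M * r) := ⟨Nat.mul_ne_zero (NeZero.ne M) hr.ne_zero⟩
  have : IsGalois ℚ E := IsCyclotomicExtension.isGalois {M * r} ℚ E
  have : Algebra.IsIntegral ℚ E := inferInstance
  have hcyc : IsCyclotomicExtension {M} ℚ (IntermediateField.adjoin ℚ {z}) :=
    hz.intermediateField_adjoin_isCyclotomicExtension ℚ
  have : NumberField (IntermediateField.adjoin ℚ {z}) := inferInstance
  set N : E := ∏ y ∈ S, y with hN
  have hNfix : ∀ σ : E ≃ₐ[ℚ] E, σ z = z → σ N = N := by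
    intro σ hσ
    rw [hN, map_prod]
    apply Finset.prod_bij (fun y _ => σ y)
    · intro y hy
      exact hS' σ hσ y hy
    · intro a _ b _ hab
      exact σ.injective hab
    · intro y hy
      refine ⟨σ.symm y, ?_, by simp⟩
      apply hS' σ.symm _ y hy
      rw [AlgEquiv.symm_apply_eq]
      exact hσ.symm
    · intro y _
      rfl
  have hNmem : N ∈ IntermediateField.adjoin ℚ {z} := by
    rw [← IsGalois.fixedField_fixingSubgroup (IntermediateField.adjoin ℚ {z})]
    rw [IntermediateField.mem_fixedField_iff]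
    intro σ hσ
    rw [IntermediateField.mem_fixingSubgroup_iff] at hσ
    exact hNfix σ (hσ z (IntermediateField.mem_adjoin_simple_self ℚ z))
  have hvN : v N = v β ^ S.card := by
    rw [hN, map_prod, Finset.prod_congr rfl (g := fun _ => v β), Finset.prod_const]
    intro y hy
    obtain ⟨σ, hσ, rfl⟩ := hS y hy
    exact h.map_eq hr M hz σ hσ β
  have hvN1 : v N < 1 := by
    rw [hvN]
    exact pow_lt_one₀ (v.nonneg _) hβ (Finset.card_pos.mpr ⟨β, hmem⟩).ne'
  rw [← hvN]
  have key := (h.comp (algebraMap (IntermediateField.adjoin ℚ {z}) E)).unramified hr M hM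
    (⟨N, hNmem⟩ : IntermediateField.adjoin ℚ {z}) hvN1
  have e1 : (v.comp (algebraMap (IntermediateField.adjoin ℚ {z}) E).injective)
    (⟨N, hNmem⟩ : IntermediateField.adjoin ℚ {z}) = v N := rfl
  have e2 : (v.comp (algebraMap (IntermediateField.adjoin ℚ {z}) E).injective)
    (r : IntermediateField.adjoin ℚ {z}) = v (r : E) := by
    show v (algebraMap (IntermediateField.adjoin ℚ {z}) E (r : IntermediateField.adjoin ℚ {z})) = _
    rw [map_natCast]
  rw [e1, e2] at key
  exact key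

/-- the basic bound at the places above `r` -/
lemma Good.bound (h : Good v r) (hr : r.Prime) (M : ℕ) [NeZero M] (hM : ¬ r ∣ M)
    [IsCyclotomicExtension {M * r} ℚ E] {z : E} (hz : IsPrimitiveRoot z M)
    {T : Type*} [Group T] (ψ : (E ≃ₐ[ℚ] E) →* T) (U : Finset T) (m : ℕ) (hU : U.card ≤ m)
    (hψU : ∀ σ, ψ σ ∈ U)
    (α : E) (hfix : ∀ σ : E ≃ₐ[ℚ] E, σ z = z → ψ σ = 1 → σ α = α)
    (σ : E ≃ₐ[ℚ] E) (hσ : σ z = z) :
    v (σ α - α) ^ m ≤ v (r : E) * (max (v α) 1 * max (v (σ α)) 1) ^ m := by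
  classical
  -- the statement for elements with `v x ≤ 1`
  have key : ∀ x : E, v x ≤ 1 → (∀ σ : E ≃ₐ[ℚ] E, σ z = z → ψ σ = 1 → σ x = x) →
      v (σ x - x) ^ m ≤ v (r : E) := by
    intro x hx hxfix
    have hlt := (h.inertia hr M hz σ hσ x hx).1
    -- the orbit
    have hfixβ : ∀ τ : E ≃ₐ[ℚ] E, τ z = z → ψ τ = 1 → τ (σ x - x) = σ x - x := by
      intro τ hτ hψτ
      rw [map_sub, hxfix τ hτ hψτ]
      congr 1
      have h1 : (σ⁻¹ * τ * σ) x = x := by
        apply hxfix
        · show σ⁻¹ (τ (σ z)) = z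
          rw [hσ, hτ]
          show σ.symm z = z
          rw [AlgEquiv.symm_apply_eq]
          exact hσ.symm
        · rw [map_mul, map_mul, hψτ, mul_one, ← map_mul, inv_mul_cancel, map_one]
      have h2 : σ ((σ⁻¹ * τ * σ) x) = τ (σ x) := by
        show (σ * (σ⁻¹ * τ * σ)) x = τ (σ x)
        rw [← mul_assoc, ← mul_assoc, mul_inv_cancel, one_mul]
        rfl
      rw [← h2, h1]
    set β := σ x - x with hβ
    let S : Finset E := (U.filter (fun t => ∃ τ : E ≃ₐ[ℚ] E, τ z = z ∧ ψ τ = t)).attach.image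
      (fun t => (Finset.mem_filter.mp t.2).2.choose β)
    have hScard : S.card ≤ m := by
      calc S.card ≤ _ := Finset.card_image_le
        _ = (U.filter (fun t => ∃ τ : E ≃ₐ[ℚ] E, τ z = z ∧ ψ τ = t)).card := Finset.card_attach
        _ ≤ U.card := Finset.card_filter_le _ _
        _ ≤ m := hU
    have hSmem : ∀ y, y ∈ S ↔ ∃ τ : E ≃ₐ[ℚ] E, τ z = z ∧ τ β = y := by
      intro y
      constructor
      · intro hy
        rw [Finset.mem_image] at hy
        obtain ⟨t, -, ht⟩ := hy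
        exact ⟨_, (Finset.mem_filter.mp t.2).2.choose_spec.1, ht⟩
      · rintro ⟨τ, hτ, rfl⟩
        rw [Finset.mem_image]
        refine ⟨⟨ψ τ, Finset.mem_filter.mpr ⟨hψU τ, τ, hτ, rfl⟩⟩, Finset.mem_attach _ _, ?_⟩
        set t : {t // t ∈ U.filter (fun t => ∃ τ : E ≃ₐ[ℚ] E, τ z = z ∧ ψ τ = t)} :=
          ⟨ψ τ, Finset.mem_filter.mpr ⟨hψU τ, τ, hτ, rfl⟩⟩ with htdef
        have hspec := (Finset.mem_filter.mp t.2).2.choose_spec
        set ρ := (Finset.mem_filter.mp t.2).2.choose with hρ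
        -- ρ and τ agree
        have h1 : (τ⁻¹ * ρ) β = β := by
          apply hfixβ
          · show τ⁻¹ (ρ z) = z
            rw [hspec.1]
            show τ.symm z = z
            rw [AlgEquiv.symm_apply_eq]
            exact hτ.symm
          · rw [map_mul, hspec.2, ← map_mul, inv_mul_cancel, map_one] 
        have h2 : τ ((τ⁻¹ * ρ) β) = ρ β := by
          show (τ * (τ⁻¹ * ρ)) β = ρ β
          rw [← mul_assoc, mul_inv_cancel, one_mul]
        rw [← h2, h1]
    have h3 : v β ^ S.card ≤ v (r : E) := by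
      apply h.orbit hr M hM hz S β hlt
      · rw [hSmem]
        exact ⟨1, rfl, rfl⟩
      · intro y hy
        exact (hSmem y).mp hy
      · intro τ hτ y hy
        rw [hSmem] at hy ⊢
        obtain ⟨ρ, hρ, rfl⟩ := hy
        exact ⟨τ * ρ, by show τ (ρ z) = z; rw [hρ, hτ], rfl⟩
    exact (pow_le_pow_of_le_one (v.nonneg _) hlt.le hScard).trans h3
  have hvσ := h.map_eq hr M hz σ hσ
  rcases le_or_gt (v α) 1 with hα | hα
  · have h1 := key α hα hfix
    have h2 : max (v α) 1 = 1 := max_eq_right hα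
    have h3 : max (v (σ α)) 1 = 1 := by rw [hvσ]; exact h2
    rw [h2, h3, mul_one, one_pow, mul_one]
    exact h1
  · have hα0 : α ≠ 0 := by
      rintro rfl
      rw [map_zero] at hα
      linarith
    have h1 : v α⁻¹ ≤ 1 := by
      rw [map_inv₀]
      exact inv_le_one_of_one_le₀ hα.le
    have h2 := key α⁻¹ h1 (fun τ hτ hψ => by rw [map_inv₀, hfix τ hτ hψ])
    have h3 : max (v α) 1 = v α := max_eq_left hα.le
    have h4 : max (v (σ α)) 1 = v (σ α) := by rw [hvσ]; exact h3
    rw [h3, h4]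
    have hσα0 : σ α ≠ 0 := by
      intro h0
      exact hα0 (by simpa using h0)
    have h5 : σ α - α = - ((σ α⁻¹ - α⁻¹) * (α * σ α)) := by
      rw [map_inv₀]
      field_simp
      ring
    rw [h5, map_neg_eq_map, map_mul, mul_pow, map_mul]
    exact mul_le_mul_of_nonneg_right h2 (pow_nonneg (mul_nonneg (v.nonneg _) (v.nonneg _)) _)

end orbit

end Pool.Agent.Q16.UB
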