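import Pool.Agent.Q16.UB.Ht

/-!
# The tower of abelian fields
-/

set_option autoImplicit false

namespace Pool.Agent.Q16.UB

open NumberField Height Polynomial

/-- the algebraic numbers -/
abbrev Qb : Type := AlgebraicClosure ℚ

/-- the absolute Galois group -/
abbrev Gb : Type := Qb ≃ₐ[ℚ] Qb

instance instAlgQb : Algebra.IsAlgebraic ℚ Qb := AlgebraicClosure.isAlgebraic ℚ

instance instClosureQb : IsAlgClosure ℚ Qb := ⟨inferInstance, inferInstance⟩

instance instGaloisQb : IsGalois ℚ Qb := IsAlgClosure.isGalois ℚ Qb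

lemma exists_prim (n : ℕ) (hn : n ≠ 0) : ∃ ζ : Qb, IsPrimitiveRoot ζ n := by
  have : NeZero n := ⟨hn⟩
  have : NeZero (n : Qb) := ⟨by exact_mod_cast hn⟩
  exact HasEnoughRootsOfUnity.exists_primitiveRoot Qb n

/-- every exponent prime to the order comes from an automorphism -/
lemma exists_gal {ζ : Qb} {n : ℕ} (hn : 0 < n) (hζ : IsPrimitiveRoot ζ n) (a : ℕ)
    (ha : a.Coprime n) : ∃ σ : Gb, σ ζ = ζ ^ a := by
  have h1 : IsConjRoot ℚ (ζ ^ a) ζ := by
    have h2 := Polynomial.cyclotomic_eq_minpoly_rat hζ hn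
    have h3 := Polynomial.cyclotomic_eq_minpoly_rat (hζ.pow_of_coprime a ha) hn
    rw [IsConjRoot, ← h2, ← h3]
  exact isConjRoot_iff_exists_algEquiv.mp h1

/-- a sequence of primes for the tower -/
structure RSeq where
  r : ℕ → ℕ
  prime : ∀ j, (r j).Prime
  mono : StrictMono r
  dvd : ∀ j, 2 ^ j ∣ r j - 1

namespace RSeq

variable (R : RSeq)

instance (j : ℕ) : Fact (R.r j).Prime := ⟨R.prime j⟩
instance (j : ℕ) : NeZero (R.r j) := ⟨(R.prime j).ne_zero⟩

/-- a primitive root of unity -/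
noncomputable def mu (j : ℕ) : Qb := (exists_prim (R.r j) (R.prime j).ne_zero).choose

lemma mu_spec (j : ℕ) : IsPrimitiveRoot (R.mu j) (R.r j) :=
  (exists_prim (R.r j) (R.prime j).ne_zero).choose_spec

/-- the product of the first primes -/
def P (n : ℕ) : ℕ := ∏ j ∈ Finset.range n, R.r j

lemma P_succ (n : ℕ) : R.P (n + 1) = R.P n * R.r n := Finset.prod_range_succ _ _

lemma P_ne_zero (n : ℕ) : R.P n ≠ 0 :=
  Finset.prod_ne_zero_iff.mpr fun j _ => (R.prime j).ne_zero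

instance (n : ℕ) : NeZero (R.P n) := ⟨R.P_ne_zero n⟩

lemma r_not_dvd_P (n k : ℕ) (h : n ≤ k) : ¬ R.r k ∣ R.P n := by
  rw [P, Prime.dvd_finset_prod_iff (R.prime k).prime]
  rintro ⟨j, hj, hd⟩
  rw [Finset.mem_range] at hj
  have := (Nat.prime_dvd_prime_iff_eq (R.prime k) (R.prime j)).mp hd
  exact absurd (R.mono.injective this) (by omega)

lemma coprime (n : ℕ) : Nat.Coprime (R.P n) (R.r n) :=
  ((Nat.Prime.coprime_iff_not_dvd (R.prime n)).mpr (R.r_not_dvd_P n n le_rfl)).symm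

/-- a primitive root of unity of order `P n` -/
noncomputable def z (n : ℕ) : Qb := ∏ j ∈ Finset.range n, R.mu j

lemma z_succ (n : ℕ) : R.z (n + 1) = R.z n * R.mu n := Finset.prod_range_succ _ _

lemma z_spec (n : ℕ) : IsPrimitiveRoot (R.z n) (R.P n) := by
  induction n with
  | zero => simp [z, P]
  | succ n ih =>
    rw [z_succ, P_succ, IsPrimitiveRoot.iff_orderOf,
      (Commute.all _ _).orderOf_mul_eq_mul_orderOf_of_coprime, ← ih.eq_orderOf,
      ← (R.mu_spec n).eq_orderOf]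
    rw [← ih.eq_orderOf, ← (R.mu_spec n).eq_orderOf]
    exact R.coprime n

lemma mu_eq_pow (n j : ℕ) (h : j < n) : ∃ k : ℕ, R.mu j = R.z n ^ k := by
  have h1 : (R.mu j) ^ R.P n = 1 := by
    have : R.r j ∣ R.P n := Finset.dvd_prod_of_mem _ (Finset.mem_range.mpr h)
    obtain ⟨c, hc⟩ := this
    rw [hc, pow_mul, (R.mu_spec j).pow_eq_one, one_pow]
  obtain ⟨i, -, hi⟩ := (R.z_spec n).eq_pow_of_pow_eq_one h1
  exact ⟨i, hi.symm⟩

lemma z_eq_pow (n : ℕ) : ∃ k : ℕ, R.z n = R.z (n + 1) ^ k := by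
  have h1 : (R.z n) ^ R.P (n + 1) = 1 := by
    rw [P_succ, pow_mul, (R.z_spec n).pow_eq_one, one_pow]
  obtain ⟨i, -, hi⟩ := (R.z_spec (n + 1)).eq_pow_of_pow_eq_one h1
  exact ⟨i, hi.symm⟩

/-- the cyclotomic character -/
noncomputable def chi (j : ℕ) : Gb →* (ZMod (R.r j))ˣ := (R.mu_spec j).autToPow ℚ

lemma chi_spec (j : ℕ) (σ : Gb) : R.mu j ^ ((R.chi j σ : ZMod (R.r j))).val = σ (R.mu j) :=
  (R.mu_spec j).autToPow_spec ℚ σ

lemma chi_eq_iff (j : ℕ) (σ τ : Gb) : R.chi j σ = R.chi j τ ↔ σ (R.mu j) = τ (R.mu j) := by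
  constructor
  · intro h
    rw [← chi_spec, ← chi_spec, h]
  · intro h
    rw [← chi_spec, ← chi_spec] at h
    have h1 := (R.mu_spec j).pow_inj (ZMod.val_lt _) (ZMod.val_lt _) h
    exact Units.ext (ZMod.val_injective _ h1)

/-- the character of order `2 ^ j` -/
noncomputable def psi (j : ℕ) : Gb →* (ZMod (R.r j))ˣ :=
  (powMonoidHom ((R.r j - 1) / 2 ^ j)).comp (R.chi j)

lemma psi_apply (j : ℕ) (σ : Gb) : R.psi j σ = (R.chi j σ) ^ ((R.r j - 1) / 2 ^ j) := rfl

lemma psi_pow (j : ℕ) (σ : Gb) : (R.psi j σ) ^ (2 ^ j) = 1 := by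
  rw [psi_apply, ← pow_mul, Nat.div_mul_cancel (R.dvd j)]
  exact ZMod.units_pow_card_sub_one_eq_one _ _

/-- the group fixing the `n`th field -/
def H (n : ℕ) : Subgroup Gb where
  carrier := {σ | ∀ j < n, R.psi j σ = 1}
  mul_mem' := by
    intro a b ha hb j hj
    rw [map_mul, ha j hj, hb j hj, one_mul]
  one_mem' := by
    intro j _
    exact map_one _
  inv_mem' := by
    intro a ha j hj
    rw [map_inv, ha j hj, inv_one]

lemma mem_H (n : ℕ) (σ : Gb) : σ ∈ R.H n ↔ ∀ j < n, R.psi j σ = 1 := Iff.rfl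

instance (n : ℕ) : (R.H n).Normal := by
  constructor
  intro a ha b j hj
  rw [map_mul, map_mul, ha j hj, mul_one, ← map_mul, mul_inv_cancel, map_one]

lemma H_anti {m n : ℕ} (h : m ≤ n) : R.H n ≤ R.H m := fun _ hσ j hj => hσ j (hj.trans_le h)

/-- the `n`th field -/
noncomputable def Fn (n : ℕ) : IntermediateField ℚ Qb := IntermediateField.fixedField (R.H n)

lemma mem_Fn (n : ℕ) (x : Qb) : x ∈ R.Fn n ↔ ∀ σ ∈ R.H n, σ x = x :=
  IntermediateField.mem_fixedField_iff _ _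

lemma Fn_mono : Monotone R.Fn := by
  intro m n h x hx
  rw [mem_Fn] at hx ⊢
  exact fun σ hσ => hx σ (R.H_anti h hσ)

instance (n : ℕ) : IsGalois ℚ (R.Fn n) := IsGalois.of_fixedField_normal_subgroup (R.H n)

/-- the `n`th cyclotomic field -/
noncomputable def Cn (n : ℕ) : IntermediateField ℚ Qb := IntermediateField.adjoin ℚ {R.z n}

instance cyc (n : ℕ) : IsCyclotomicExtension {R.P n} ℚ (R.Cn n) :=
  (R.z_spec n).intermediateField_adjoin_isCyclotomicExtension ℚ

instance cyc' (n : ℕ) : IsCyclotomicExtension {R.P n * R.r n} ℚ (R.Cn (n + 1)) := by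
  rw [← P_succ]
  exact R.cyc (n + 1)

instance nf (n : ℕ) : NumberField (R.Cn n) :=
  IsCyclotomicExtension.numberField {R.P n} ℚ (R.Cn n)

instance gal (n : ℕ) : IsGalois ℚ (R.Cn n) := IsCyclotomicExtension.isGalois {R.P n} ℚ (R.Cn n)

lemma mem_Cn (n : ℕ) (x : Qb) : x ∈ R.Cn n ↔ ∀ σ : Gb, σ (R.z n) = R.z n → σ x = x := by
  constructor
  · intro hx σ hσ
    have h1 : R.Cn n ≤ IntermediateField.fixedField (Subgroup.zpowers σ) := by
      rw [Cn, IntermediateField.adjoin_simple_le_iff, IntermediateField.mem_fixedField_iff]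
      intro τ hτ
      obtain ⟨k, rfl⟩ := Subgroup.mem_zpowers_iff.mp hτ
      have h3 : σ ∈ MulAction.stabilizer Gb (R.z n) := hσ
      exact (MulAction.stabilizer Gb (R.z n)).zpow_mem h3 k
    have h2 := h1 hx
    rw [IntermediateField.mem_fixedField_iff] at h2
    exact h2 σ (Subgroup.mem_zpowers σ)
  · intro h
    rw [← InfiniteGalois.fixedField_fixingSubgroup (R.Cn n), IntermediateField.mem_fixedField_iff]
    intro σ hσ
    rw [IntermediateField.mem_fixingSubgroup_iff] at hσ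
    exact h σ (hσ _ (IntermediateField.mem_adjoin_simple_self ℚ _))

lemma fix_z_iff (n : ℕ) (σ τ : Gb) : σ (R.z n) = τ (R.z n) ↔ ∀ j < n, σ (R.mu j) = τ (R.mu j) := by
  constructor
  · intro h j hj
    obtain ⟨k, hk⟩ := R.mu_eq_pow n j hj
    rw [hk, map_pow, map_pow, h]
  · intro h
    rw [z, map_prod, map_prod]
    exact Finset.prod_congr rfl fun j hj => h j (Finset.mem_range.mp hj)

lemma Fn_le_Cn (n : ℕ) : R.Fn n ≤ R.Cn n := by
  intro x hx
  rw [mem_Cn]
  intro σ hσ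
  rw [mem_Fn] at hx
  apply hx
  intro j hj
  have h1 : R.chi j σ = R.chi j 1 := by
    rw [chi_eq_iff]
    exact (R.fix_z_iff n σ 1).mp hσ j hj
  rw [psi_apply, h1, map_one, one_pow]

/-- lifting automorphisms -/
lemma exists_lift (n : ℕ) (τ : Gb) : ∃ ρ : Gb, ρ (R.z n) = τ (R.z n) ∧ ρ (R.mu n) = R.mu n := by
  -- `τ z = z ^ b`
  have h1 : IsPrimitiveRoot (τ (R.z n)) (R.P n) := (R.z_spec n).map_of_injective τ.injective
  obtain ⟨b, -, hb, hb'⟩ := ((R.z_spec n).isPrimitiveRoot_iff).mp h1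
  obtain ⟨a, ha1, ha2⟩ := Nat.chineseRemainder (R.coprime n) b 1
  have hcop : a.Coprime (R.P (n + 1)) := by
    rw [P_succ]
    apply Nat.Coprime.mul_right
    · have := ha1.gcd_eq
      rw [Nat.Coprime, this]
      exact hb
    · have := ha2.gcd_eq
      rw [Nat.Coprime, this]
      exact Nat.gcd_one_left _
  obtain ⟨ρ, hρ⟩ := exists_gal (Nat.pos_of_ne_zero (R.P_ne_zero (n + 1))) (R.z_spec (n + 1)) a hcop
  refine ⟨ρ, ?_, ?_⟩
  · obtain ⟨k, hk⟩ := R.z_eq_pow n
    rw [← hb', hk, map_pow, hρ, ← pow_mul, mul_comm a k, pow_mul, ← hk]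
    exact pow_eq_pow_of_modEq ha1 (R.z_spec n).pow_eq_one
  · obtain ⟨k, hk⟩ := R.mu_eq_pow (n + 1) n (Nat.lt_succ_self n)
    rw [hk, map_pow, hρ, ← pow_mul, mul_comm a k, pow_mul, ← hk]
    have : R.mu n ^ a = R.mu n ^ 1 := pow_eq_pow_of_modEq ha2 (R.mu_spec n).pow_eq_one
    rw [this, pow_one]

/-- the intersection property -/
lemma mem_of_mem_Cn (n : ℕ) (x : Qb) (hx : x ∈ R.Fn (n + 1)) (hx' : x ∈ R.Cn n) : x ∈ R.Fn n := by
  rw [mem_Fn]
  intro τ hτ
  obtain ⟨ρ, hρ1, hρ2⟩ := R.exists_lift n τ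
  have h1 : ρ ∈ R.H (n + 1) := by
    intro j hj
    rcases Nat.lt_succ_iff_lt_or_eq.mp hj with hj | rfl
    · have h2 : R.chi j ρ = R.chi j τ := by
        rw [chi_eq_iff]
        exact (R.fix_z_iff n ρ τ).mp hρ1 j hj
      rw [psi_apply, h2, ← psi_apply]
      exact hτ j hj
    · have h2 : R.chi j ρ = R.chi j 1 := by
        rw [chi_eq_iff]
        exact hρ2
      rw [psi_apply, h2, map_one, one_pow]
  rw [mem_Fn] at hx
  rw [mem_Cn] at hx'
  have h3 := hx ρ h1
  have h4 : (τ⁻¹ * ρ) x = x := by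
    apply hx'
    show τ⁻¹ (ρ (R.z n)) = R.z n
    rw [hρ1]
    exact τ.symm_apply_apply _
  have h5 : τ ((τ⁻¹ * ρ) x) = ρ x := τ.apply_symm_apply _
  rw [h4, h3] at h5
  exact h5

/-- the bound for the degrees -/
lemma degree_le (n : ℕ) (x : Qb) (hx : x ∈ R.Fn n) :
    (minpoly ℚ x).natDegree ≤ ∏ j ∈ Finset.range n, 2 ^ j := by
  classical
  have hint : IsIntegral ℚ x := Algebra.IsIntegral.isIntegral x
  have hsep : (minpoly ℚ x).Separable := (Algebra.IsSeparable.isSeparable ℚ x)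
  have hsplit : ((minpoly ℚ x).map (algebraMap ℚ Qb)).Splits := IsAlgClosed.splits _
  have h1 : (minpoly ℚ x).natDegree = ((minpoly ℚ x).rootSet Qb).ncard := by
    rw [Set.ncard_eq_toFinset_card', Set.toFinset_card]
    exact (Polynomial.card_rootSet_eq_natDegree hsep hsplit).symm
  have h2 : ∀ y ∈ (minpoly ℚ x).rootSet Qb, ∃ σ : Gb, σ x = y := by
    intro y hy
    have h3 : IsConjRoot ℚ x y := by
      rw [isConjRoot_iff_mem_minpoly_rootSet hint]
      exact hy
    exact (isConjRoot_iff_exists_algEquiv (K := ℚ) (L := Qb)).mp h3.symm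
  choose! s hs using h2
  -- map to the characters
  let f : Qb → ((j : ℕ) → j ∈ Finset.range n → (ZMod (R.r j))ˣ) := fun y j _ => R.psi j (s y)
  let t : (j : ℕ) → Finset (ZMod (R.r j))ˣ := fun j => Finset.univ.filter fun a => a ^ (2 ^ j) = 1
  have h4 : ((minpoly ℚ x).rootSet Qb).ncard ≤ ((Finset.range n).pi t).card := by
    rw [← Set.ncard_coe_finset]
    apply Set.ncard_le_ncard_of_injOn f
    · intro y hy
      rw [Finset.mem_coe, Finset.mem_pi]
      intro j hj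
      rw [Finset.mem_filter]
      exact ⟨Finset.mem_univ _, R.psi_pow j _⟩
    · intro y hy y' hy' hyy
      have h5 : (s y')⁻¹ * s y ∈ R.H n := by
        intro j hj
        have h6 : R.psi j (s y) = R.psi j (s y') :=
          congrFun (congrFun hyy j) (Finset.mem_range.mpr hj)
        rw [map_mul, h6, ← map_mul, inv_mul_cancel, map_one]
      rw [mem_Fn] at hx
      have h7 := hx _ h5
      have h8 : (s y') (((s y')⁻¹ * s y) x) = (s y) x := (s y').apply_symm_apply _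
      rw [h7, hs y hy, hs y' hy'] at h8
      exact h8.symm
  rw [h1]
  refine h4.trans ?_
  rw [Finset.card_pi]
  apply Finset.prod_le_prod'
  intro j _
  exact IsCyclic.card_pow_eq_one_le (by positivity)

/-- the union of the tower -/
noncomputable def F : IntermediateField ℚ Qb := ⨆ n, R.Fn n

lemma mem_F (x : Qb) : x ∈ R.F ↔ ∃ n, x ∈ R.Fn n := by
  have := IntermediateField.coe_iSup_of_directed (R.Fn_mono.directed_le)
  rw [← SetLike.mem_coe, F, this, Set.mem_iUnion]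
  rfl

instance : IsGalois ℚ R.F := by
  have hn : ∀ i, Normal ℚ (R.Fn i) := fun i => (inferInstance : IsGalois ℚ (R.Fn i)).to_normal
  have : Normal ℚ R.F := IntermediateField.normal_iSup (t := R.Fn) (h := hn)
  exact {}

end RSeq

end Pool.Agent.Q16.UB
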