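import Pool.Agent.Q16.UB.Tower
import Pool.Agent.H58W.HtLimit

/-!
# Heights in the tower
-/

set_option autoImplicit false

namespace Pool.Agent.Q16.UB

open NumberField Height Polynomial
open Pool.Agent.Helper259.AbsHt

namespace RSeq

variable (R : RSeq)

/-- heights of conjugates -/
lemma logHeight_conj {E : Type*} [Field E] [NumberField E] (φ : E →+* Qb) (σ : E ≃ₐ[ℚ] E) (x : E) :
    logHeight₁ (σ x) = logHeight₁ x := by
  have h1 := absLogHeight_eq E φ (![σ x, 1])
  have h2 := absLogHeight_eq E (φ.comp (σ : E →+* E)) (![x, 1])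
  have h3 : (fun i => φ ((![σ x, 1] : Fin 2 → E) i)) =
      (fun i => (φ.comp (σ : E →+* E)) ((![x, 1] : Fin 2 → E) i)) := by
    funext i
    fin_cases i
    · rfl
    · simp
  rw [h3, h2] at h1
  have hpos : (0 : ℝ) < Module.finrank ℚ E := by
    exact_mod_cast (Module.finrank_pos (R := ℚ) (M := E))
  rw [div_left_inj' hpos.ne'] at h1
  rw [logHeight₁_eq_logHeight, logHeight₁_eq_logHeight]
  exact h1.symm

lemma absLogHeight_eq₁ {E : Type*} [Field E] [NumberField E] (φ : E →+* Qb) (x : E) :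
    absLogHeight ![1, φ x] = logHeight₁ x / Module.finrank ℚ E := by
  have h1 := absLogHeight_eq E φ (![x, 1])
  have h3 : (fun i => φ ((![x, 1] : Fin 2 → E) i)) = ![φ x, 1] := by
    funext i
    fin_cases i
    · rfl
    · simp
  rw [h3] at h1
  rw [logHeight₁_eq_logHeight, ← h1, Pool.Agent.H58W.absLogHeight_pair (φ x) 1, div_one]

/-- the embedded element -/
lemma z_mem (n : ℕ) : R.z n ∈ R.Cn (n + 1) := by
  obtain ⟨k, hk⟩ := R.z_eq_pow n
  rw [hk]
  exact pow_mem (IntermediateField.mem_adjoin_simple_self ℚ _) k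

lemma mu_mem (n : ℕ) : R.mu n ∈ R.Cn (n + 1) := by
  obtain ⟨k, hk⟩ := R.mu_eq_pow (n + 1) n (Nat.lt_succ_self n)
  rw [hk]
  exact pow_mem (IntermediateField.mem_adjoin_simple_self ℚ _) k

theorem height_lower_tower (n : ℕ) (α : Qb) (hα : α ∈ R.Fn (n + 1)) (hα' : α ∉ R.Fn n) :
    Real.log (R.r n) / 2 ^ n - Real.log 2 ≤ 2 * absLogHeight ![1, α] := by
  classical
  have hαC : α ∈ R.Cn (n + 1) := R.Fn_le_Cn (n + 1) hα
  have hαnC : α ∉ R.Cn n := fun h => hα' (R.mem_of_mem_Cn n α hα h)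
  -- the field
  set E := R.Cn (n + 1) with hE
  let a : E := ⟨α, hαC⟩
  let z : E := ⟨R.z n, R.z_mem n⟩
  let μ : E := ⟨R.mu n, R.mu_mem n⟩
  have hz : IsPrimitiveRoot z (R.P n) :=
    IsPrimitiveRoot.of_map_of_injective (f := algebraMap E Qb) (R.z_spec n)
      (algebraMap E Qb).injective
  have hμ : IsPrimitiveRoot μ (R.r n) :=
    IsPrimitiveRoot.of_map_of_injective (f := algebraMap E Qb) (R.mu_spec n)
      (algebraMap E Qb).injective
  let ψ : (E ≃ₐ[ℚ] E) →* (ZMod (R.r n))ˣ :=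
    (powMonoidHom ((R.r n - 1) / 2 ^ n)).comp (hμ.autToPow ℚ)
  let U : Finset (ZMod (R.r n))ˣ := Finset.univ.filter fun a => a ^ (2 ^ n) = 1
  have hU : U.card ≤ 2 ^ n := IsCyclic.card_pow_eq_one_le (by positivity)
  have hψU : ∀ σ, ψ σ ∈ U := by
    intro σ
    rw [Finset.mem_filter]
    refine ⟨Finset.mem_univ _, ?_⟩
    show ((hμ.autToPow ℚ σ) ^ ((R.r n - 1) / 2 ^ n)) ^ (2 ^ n) = 1
    rw [← pow_mul, Nat.div_mul_cancel (R.dvd n)]
    exact ZMod.units_pow_card_sub_one_eq_one _ _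
  -- lifting
  have hlift : ∀ σ : E ≃ₐ[ℚ] E, ∃ τ : Gb, ∀ x : E, τ (x : Qb) = (σ x : Qb) := by
    intro σ
    refine ⟨σ.liftNormal Qb, fun x => ?_⟩
    exact AlgEquiv.liftNormal_commutes σ Qb x
  have hfix : ∀ σ : E ≃ₐ[ℚ] E, σ z = z → ψ σ = 1 → σ a = a := by
    intro σ hσ hψ
    obtain ⟨τ, hτ⟩ := hlift σ
    have h1 : τ ∈ R.H (n + 1) := by
      intro j hj
      rcases Nat.lt_succ_iff_lt_or_eq.mp hj with hj | rfl
      · have h2 : R.chi j τ = R.chi j 1 := by
          rw [chi_eq_iff]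
          refine (R.fix_z_iff n τ 1).mp ?_ j hj
          have := hτ z
          rw [hσ] at this
          exact this
        rw [psi_apply, h2, map_one, one_pow]
      · have h2 : R.chi j τ = hμ.autToPow ℚ σ := by
          have h3 : R.mu j ^ ((R.chi j τ : ZMod (R.r j))).val =
              R.mu j ^ ((hμ.autToPow ℚ σ : ZMod (R.r j))).val := by
            rw [R.chi_spec]
            have h4 := hμ.autToPow_spec ℚ σ
            have h5 := congrArg (fun y : E => (y : Qb)) h4
            simp only [SubmonoidClass.coe_pow] at h5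
            rw [← hτ μ] at h5
            exact h5.symm
          have h1 := (R.mu_spec j).pow_inj (ZMod.val_lt _) (ZMod.val_lt _) h3
          exact Units.ext (ZMod.val_injective _ h1)
        rw [psi_apply, h2]
        exact hψ
    have h2 := (R.mem_Fn (n + 1) α).mp hα τ h1
    apply Subtype.ext
    rw [← hτ a]
    exact h2
  -- an automorphism that moves `α`
  obtain ⟨τ, hτz, hτα⟩ : ∃ τ : Gb, τ (R.z n) = R.z n ∧ τ α ≠ α := by
    rw [mem_Cn] at hαnC
    push Not at hαnC
    exact hαnC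
  let σ : E ≃ₐ[ℚ] E := τ.restrictNormal E
  have hσ : ∀ x : E, ((σ x : E) : Qb) = τ (x : Qb) := fun x => AlgEquiv.restrictNormal_commutes τ E x
  have hσz : σ z = z := by
    apply Subtype.ext
    rw [hσ]
    exact hτz
  have hσa : σ a ≠ a := by
    intro h
    apply hτα
    have := hσ a
    rw [h] at this
    exact this.symm
  have key := height_cyc (E := E) (R.r n) (R.prime n) (R.P n) (R.r_not_dvd_P n n le_rfl) hz ψ U
    (2 ^ n) (by positivity) hU hψU a hfix σ hσz hσa
  rw [logHeight_conj (algebraMap E Qb) σ a] at key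
  have h1 := absLogHeight_eq₁ (algebraMap E Qb) a
  have h2 : (algebraMap E Qb) a = α := rfl
  rw [h2] at h1
  have hpos : (0 : ℝ) < Module.finrank ℚ E := by
    exact_mod_cast (Module.finrank_pos (R := ℚ) (M := E))
  rw [h1, ← mul_div_assoc, le_div_iff₀ hpos]
  push_cast at key
  linarith

end RSeq

end Pool.Agent.Q16.UB
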