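import Pool.Agent.Q16.UB.TowerHt
import Pool.Agent.H58W.HtNorth

/-!
# The universal strong Bogomolov property of the tower
-/

set_option autoImplicit false

namespace Pool.Agent.Q16.UB

open NumberField Height Polynomial Filter
open Pool.Agent.Helper259.AbsHt Pool.Agent.H58W

namespace RSeq

variable (R : RSeq)

theorem usb (hgrow : ∀ n : ℕ, 2 * ((n : ℝ) * ((∏ j ∈ Finset.range (n + 1), 2 ^ j : ℕ) : ℝ) + n) <
      Real.log (R.r n) / 2 ^ n - Real.log 2)
    (P Q : Qb[X]) (d : ℕ) (hd : max P.natDegree Q.natDegree = d)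
    (hd2 : 2 ≤ d) (hco : IsCoprime P Q) :
    Set.Finite {α : Qb | α ∈ R.F ∧ ∃ L : ℝ,
      Tendsto (fun n : ℕ => hM (((lift P Q d)^[n] (α, 1)).1 / ((lift P Q d)^[n] (α, 1)).2) /
        (d : ℝ) ^ n) atTop (nhds L) ∧ L < 1} := by
  classical
  obtain ⟨m, hm⟩ := small_limit_bound P Q d hd hd2 hco
  set D : ℕ → ℕ := fun n => ∏ j ∈ Finset.range n, 2 ^ j with hD
  refine (northcott (D m) (m * D m + m)).subset ?_
  rintro α ⟨hα, L, hL, hL1⟩
  rw [R.mem_F] at hα
  set n := Nat.find hα with hn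
  have hαn : α ∈ R.Fn n := Nat.find_spec hα
  rcases le_or_gt n m with hnm | hnm
  · have h1 : α ∈ R.Fn m := R.Fn_mono hnm hαn
    have h2 := R.degree_le m α h1
    exact ⟨h2, hm (D m) α h2 L hL1 hL⟩
  · exfalso
    obtain ⟨k, hk⟩ : ∃ k, n = k + 1 := ⟨n - 1, by omega⟩
    have h1 : α ∉ R.Fn k := Nat.find_min hα (by omega)
    rw [hk] at hαn
    have h2 := R.degree_le (k + 1) α hαn
    have h3 := hm (D (k + 1)) α h2 L hL1 hL
    have h4 := R.height_lower_tower k α hαn h1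
    have h5 := hgrow k
    have h6 : (m : ℝ) ≤ k := by exact_mod_cast (by omega : m ≤ k)
    have h7 : (m : ℝ) * (D (k + 1) : ℝ) + m ≤ k * (D (k + 1) : ℝ) + k := by
      have : (0 : ℝ) ≤ (D (k + 1) : ℝ) := Nat.cast_nonneg _
      nlinarith
    have h8 : (D (k + 1) : ℝ) = ((∏ j ∈ Finset.range (k + 1), 2 ^ j : ℕ) : ℝ) := rfl
    rw [← h8] at h5
    linarith

end RSeq

end Pool.Agent.Q16.UB
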